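import Pool.Agent.K6.H99.RO.Conv

/-!
# The difference of the two Busemann functions of a rank one axis
-/

set_option autoImplicit false

open Metric Set Filter Topology
open Pool.Agent.TH60.FP Pool.Agent.TH60.FP.Strip Pool.Agent.Y34.HB Pool.Agent.Y34.EL
open Pool.Agent.T6.H46.RR Pool.Agent.T6.H46.RC

namespace Pool.Agent.K6.H99.RO

variable {X : Type} [MetricSpace X]

/-- the quadrilateral inequality -/
lemma quad (hX : CN X) (x y p q : X) :
    dist x q ^ 2 + dist y p ^ 2 ≤
      dist x p ^ 2 + dist y q ^ 2 + dist x y ^ 2 + dist p q ^ 2 := by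
  obtain ⟨m, hm⟩ := hX x q
  have h1 := hm y
  have h2 := hm p
  have h3 := dist_triangle y m p
  rw [dist_comm m p] at h3
  have h4 : dist y p ^ 2 ≤ (dist y m + dist p m) ^ 2 :=
    pow_le_pow_left₀ dist_nonneg h3 2
  have h5 : (dist y m + dist p m) ^ 2 ≤ 2 * dist y m ^ 2 + 2 * dist p m ^ 2 := by
    nlinarith [sq_nonneg (dist y m - dist p m)]
  rw [dist_comm y x] at h1
  rw [dist_comm p x] at h2
  linarith

/-- the Busemann function of the positive ray of `c` -/
noncomputable def bus (c : ℝ → X) (y : X) : ℝ := ⨅ n : ℕ, (dist y (c n) - n)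

lemma bus_anti {c : ℝ → X} (hc : Isometry c) (y : X) :
    Antitone fun n : ℕ => dist y (c n) - n := by
  intro a b hab
  have h1 := dist_triangle y (c a) (c b)
  have h2 : dist (c (a : ℝ)) (c (b : ℝ)) = b - a := by
    rw [hc.dist_eq, Real.dist_eq, abs_sub_comm, abs_of_nonneg]
    have : (a : ℝ) ≤ b := by exact_mod_cast hab
    linarith
  show dist y (c b) - b ≤ dist y (c a) - a
  linarith

lemma bus_tendsto {c : ℝ → X} (hc : Isometry c) (y : X) :
    Tendsto (fun n : ℕ => dist y (c n) - n) atTop (𝓝 (bus c y)) := by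
  refine tendsto_atTop_ciInf (bus_anti hc y) ⟨-dist y (c 0), ?_⟩
  rintro _ ⟨n, rfl⟩
  have h1 := dist_triangle (c 0) y (c n)
  have h2 : dist (c 0) (c (n : ℝ)) = n := by
    rw [hc.dist_eq, Real.dist_eq, zero_sub, abs_neg, abs_of_nonneg (Nat.cast_nonneg n)]
  show -dist y (c 0) ≤ dist y (c n) - n
  rw [dist_comm (c 0) y] at h1
  linarith

/-- the difference of the Busemann functions -/
noncomputable def BF (c : ℝ → X) (y : X) : ℝ := bus (fun t => c (-t)) y - bus c y

lemma bf_tendsto {c : ℝ → X} (hc : Isometry c) (y : X) :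
    Tendsto (fun n : ℕ => dist y (c (-n)) - dist y (c n)) atTop (𝓝 (BF c y)) := by
  have h1 := (bus_tendsto (neg_iso hc) y).sub (bus_tendsto hc y)
  refine h1.congr fun n => ?_
  ring

lemma bf_lip {c : ℝ → X} (hc : Isometry c) (y y' : X) :
    |BF c y - BF c y'| ≤ 2 * dist y y' := by
  have h1 := (bf_tendsto hc y).sub (bf_tendsto hc y')
  refine le_of_tendsto h1.abs (Eventually.of_forall fun n => ?_)
  have h2 := dist_triangle y y' (c (-n))
  have h3 := dist_triangle y' y (c (-n))
  have h4 := dist_triangle y y' (c n)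
  have h5 := dist_triangle y' y (c n)
  rw [dist_comm y' y] at h3 h5
  rw [abs_le]
  constructor <;> linarith

lemma bf_axis {c : ℝ → X} (hc : Isometry c) (t : ℝ) : BF c (c t) = 2 * t := by
  refine tendsto_nhds_unique (bf_tendsto hc (c t)) ?_
  refine Tendsto.congr' ?_ tendsto_const_nhds
  obtain ⟨N, hN⟩ := exists_nat_ge |t|
  filter_upwards [eventually_ge_atTop N] with n hn
  have h1 : |t| ≤ n := hN.trans (by exact_mod_cast hn)
  obtain ⟨h2, h3⟩ := abs_le.1 h1
  rw [hc.dist_eq, hc.dist_eq, Real.dist_eq, Real.dist_eq, abs_of_nonneg (by linarith),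
    abs_of_nonpos (by linarith)]
  ring

/-- a point of the segment from `y` to `c n` near the projection of `y` -/
lemma near_pt {c : ℝ → X} {τ R D : ℝ} (h : Pass c τ R D) {y : X} {s : ℝ} (hs : Pj c y s)
    {t : ℝ} (ht : s + 2 * D + τ ≤ t) :
    ∃ m, dist y m + dist m (c t) = dist y (c t) ∧ dist (c s) m ≤ R + D + τ := by
  obtain ⟨hc, hτ, hR, hD, hpass⟩ := h
  set i : ℤ := ⌈(s + D) / τ⌉ with hi
  have h1 : s + D ≤ i * τ := by
    rw [← div_le_iff₀ hτ]; exact Int.le_ceil _
  have h2 : i * τ ≤ s + D + τ := by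
    have h3 := (Int.ceil_lt_add_one ((s + D) / τ)).le
    have h4 : (i : ℝ) * τ ≤ ((s + D) / τ + 1) * τ := mul_le_mul_of_nonneg_right h3 hτ.le
    rwa [add_mul, one_mul, div_mul_cancel₀ _ hτ.ne'] at h4
  obtain ⟨m, hm1, hm2⟩ := hpass y (c t) s t i hs (pj_self t) h1 (by linarith)
  refine ⟨m, hm1, ?_⟩
  have h3 := dist_triangle (c s) (c (i * τ)) m
  have h4 : dist (c s) (c (i * τ)) ≤ D + τ := by
    rw [hc.dist_eq, Real.dist_eq, abs_sub_comm, abs_of_nonneg (by linarith)]
    linarith
  linarith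

/-- one-sided estimate of the distances to far points of the axis -/
lemma dist_far {c : ℝ → X} {τ R D : ℝ} (h : Pass c τ R D) {y : X} {s : ℝ} (hs : Pj c y s)
    {t : ℝ} (ht : s + 2 * D + τ ≤ t) :
    |dist y (c t) - t - (dist y (c s) - s)| ≤ 2 * (R + D + τ) := by
  obtain ⟨m, hm1, hm2⟩ := near_pt h hs ht
  obtain ⟨hc, hτ, hR, hD, -⟩ := h
  have h1 : dist (c s) (c t) = t - s := by
    rw [hc.dist_eq, Real.dist_eq, abs_sub_comm, abs_of_nonneg (by linarith)]
  have h2 := dist_triangle y (c s) m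
  have h3 := dist_triangle y m (c s)
  have h4 := dist_triangle (c s) m (c t)
  have h5 := dist_triangle m (c s) (c t)
  rw [dist_comm m (c s)] at h3 h5
  rw [abs_le]
  constructor <;> linarith

lemma bf_proj {c : ℝ → X} {τ R D : ℝ} (h : Pass c τ R D) {y : X} {s : ℝ} (hs : Pj c y s) :
    |BF c y - 2 * s| ≤ 4 * (R + D + τ) := by
  have hc := h.1
  have h1 := ((bf_tendsto hc y).sub_const (2 * s)).abs
  refine le_of_tendsto h1 ?_
  obtain ⟨N, hN⟩ := exists_nat_ge (|s| + 2 * D + τ)
  filter_upwards [eventually_ge_atTop N] with n hn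
  have hn' : |s| + 2 * D + τ ≤ n := hN.trans (by exact_mod_cast hn)
  have h2 := dist_far h hs (t := n) (by linarith [le_abs_self s])
  have h3 := dist_far h.neg (y := y) (s := -s) hs.neg (t := n) (by linarith [neg_le_abs s])
  simp only [neg_neg] at h3
  obtain ⟨h4, h5⟩ := abs_le.1 h2
  obtain ⟨h6, h7⟩ := abs_le.1 h3
  rw [abs_le]
  constructor <;> linarith

/-- the main estimate: the difference of the Busemann functions has a small gradient far from the
axis -/
lemma bf_half (hX : CN X) {c : ℝ → X} {τ R D : ℝ} (h : Pass c τ R D) {y y' : X} {s s' : ℝ}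
    (hs : Pj c y s) (hs' : Pj c y' s') (hr : R + D + τ < dist y (c s)) :
    BF c y - BF c y' ≤ (2 * dist y y' + 6 * (R + D + τ)) ^ 2 / (dist y (c s) - (R + D + τ)) := by
  set E : ℝ := R + D + τ with hE
  set δ : ℝ := dist y y' with hδ
  have hc := h.1
  have hτ := h.2.1
  have hR := h.2.2.1
  have hD := h.2.2.2.1
  have hE0 : 0 < E := by linarith
  have hδ0 : 0 ≤ δ := dist_nonneg
  have hss : |s - s'| ≤ δ + 4 * E := by
    have h1 := bf_lip hc y y'
    have h2 := bf_proj h hs
    have h3 := bf_proj h hs'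
    obtain ⟨h1a, h1b⟩ := abs_le.1 h1
    obtain ⟨h2a, h2b⟩ := abs_le.1 h2
    obtain ⟨h3a, h3b⟩ := abs_le.1 h3
    rw [abs_le]
    constructor <;> linarith
  refine le_of_tendsto ((bf_tendsto hc y).sub (bf_tendsto hc y')) ?_
  obtain ⟨N, hN⟩ := exists_nat_ge (|s| + |s'| + 2 * D + τ)
  filter_upwards [eventually_ge_atTop N] with n hn
  have hn' : |s| + |s'| + 2 * D + τ ≤ n := hN.trans (by exact_mod_cast hn)
  obtain ⟨p, hp1, hp2⟩ := near_pt h hs (t := n) (by
    linarith [le_abs_self s, abs_nonneg s'])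
  obtain ⟨q, hq1, hq2⟩ := near_pt h.neg (y := y') (s := -s') hs'.neg (t := n) (by
    linarith [neg_le_abs s', abs_nonneg s])
  simp only [neg_neg] at hq2
  have hq1' : dist y' q + dist q (c (-n)) = dist y' (c (-n)) := hq1
  have hpq : dist p q ≤ 6 * E + δ := by
    have h1 := dist_triangle4 p (c s) (c s') q
    rw [dist_comm p (c s), hc.dist_eq, Real.dist_eq] at h1
    linarith
  have h1 := quad hX y y' p q
  have h2 := dist_triangle y' p (c n)
  have h3 := dist_triangle y q (c (-n))
  -- reduce to the estimate of the differences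
  have hred : dist y (c (-n)) - dist y (c n) - (dist y' (c (-n)) - dist y' (c n)) ≤
      (dist y q - dist y' q) + (dist y' p - dist y p) := by linarith
  refine hred.trans ?_
  have ha : dist y (c s) - E ≤ dist y p := by
    have := dist_triangle y p (c s)
    rw [dist_comm p (c s)] at this
    linarith
  have ha0 : 0 < dist y (c s) - E := by linarith
  rw [le_div_iff₀ ha0]
  have hb1 : |dist y q - dist y' q| ≤ δ := abs_dist_sub_le _ _ _
  have hb2 : |dist y' p - dist y p| ≤ δ := by
    rw [abs_sub_comm]; exact abs_dist_sub_le _ _ _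
  have hb3 : |dist y q - dist y p| ≤ dist p q := by
    rw [dist_comm y q, dist_comm y p, dist_comm p q]; exact abs_dist_sub_le _ _ _
  have hb4 : |dist y' q - dist y' p| ≤ dist p q := by
    rw [dist_comm y' q, dist_comm y' p, dist_comm p q]; exact abs_dist_sub_le _ _ _
  set a : ℝ := dist y p
  set a' : ℝ := dist y' p
  set b : ℝ := dist y q
  set b' : ℝ := dist y' q
  have ha'0 : 0 ≤ a' := dist_nonneg
  -- the sum is at most `(δ + ρ)² / (a + a')`
  have h4 : (b - b') * (b + b') + (a' - a) * (a' + a) ≤ δ ^ 2 + dist p q ^ 2 := by nlinarith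
  have h5 : ((b - b') + (a' - a)) * (a + a') ≤ δ ^ 2 + dist p q ^ 2 + 2 * (δ * dist p q) := by
    have h6 : (b - b') * ((a + a') - (b + b')) ≤ δ * (2 * dist p q) := by
      refine (le_abs_self _).trans ?_
      rw [abs_mul]
      refine mul_le_mul hb1 ?_ (abs_nonneg _) hδ0
      obtain ⟨h7, h8⟩ := abs_le.1 hb3
      obtain ⟨h9, h10⟩ := abs_le.1 hb4
      rw [abs_le]
      constructor <;> linarith
    nlinarith
  have hdpq : 0 ≤ dist p q := dist_nonneg
  have h7 : δ ^ 2 + dist p q ^ 2 + 2 * (δ * dist p q) ≤ (2 * δ + 6 * E) ^ 2 := by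
    have : δ ^ 2 + dist p q ^ 2 + 2 * (δ * dist p q) = (δ + dist p q) ^ 2 := by ring
    rw [this]
    exact pow_le_pow_left₀ (by positivity) (by linarith) 2
  rcases le_total 0 ((b - b') + (a' - a)) with h8 | h8
  · have h9 : ((b - b') + (a' - a)) * (dist y (c s) - E) ≤ ((b - b') + (a' - a)) * (a + a') :=
      mul_le_mul_of_nonneg_left (by linarith) h8
    linarith
  · have h9 : ((b - b') + (a' - a)) * (dist y (c s) - E) ≤ 0 :=
      mul_nonpos_of_nonpos_of_nonneg h8 ha0.le
    have := sq_nonneg (2 * δ + 6 * E)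
    linarith

lemma bf_grad (hX : CN X) {c : ℝ → X} {τ R D : ℝ} (h : Pass c τ R D) {y y' : X} {s s' : ℝ}
    (hs : Pj c y s) (hs' : Pj c y' s') (hr : R + D + τ + dist y y' < dist y (c s)) :
    |BF c y - BF c y'| ≤ (2 * dist y y' + 6 * (R + D + τ)) ^ 2 /
      (dist y (c s) - (R + D + τ) - dist y y') := by
  have hδ0 : 0 ≤ dist y y' := dist_nonneg
  have h1 := bf_half hX h hs hs' (by linarith)
  have hr' : dist y (c s) - dist y y' ≤ dist y' (c s') := by
    have h2 := hs s'
    have h3 := dist_triangle y y' (c s')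
    linarith
  have h2 := bf_half hX h hs' hs (by linarith)
  rw [dist_comm y' y] at h2
  have h0 := sq_nonneg (2 * dist y y' + 6 * (R + D + τ))
  rw [abs_le]
  constructor
  · have h3 : (2 * dist y y' + 6 * (R + D + τ)) ^ 2 / (dist y' (c s') - (R + D + τ)) ≤
        (2 * dist y y' + 6 * (R + D + τ)) ^ 2 / (dist y (c s) - (R + D + τ) - dist y y') :=
      div_le_div_of_nonneg_left h0 (by linarith) (by linarith)
    linarith
  · have h3 : (2 * dist y y' + 6 * (R + D + τ)) ^ 2 / (dist y (c s) - (R + D + τ)) ≤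
        (2 * dist y y' + 6 * (R + D + τ)) ^ 2 / (dist y (c s) - (R + D + τ) - dist y y') :=
      div_le_div_of_nonneg_left h0 (by linarith) (by linarith)
    linarith

end Pool.Agent.K6.H99.RO
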