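import Pool.Agent.K6.H99.RO.Flat

/-!
# Ping-pong pairs from codimension one subgroups
-/

set_option autoImplicit false

open Metric Set Filter Topology
open Pool.Agent.Y34.HB

namespace Pool.Agent.K6.H99.RO

variable {G : Type} [Group G]

/-- the union of the cosets `H f`, `f ∈ F` -/
def Nb (H : Subgroup G) (F : Set G) : Set G := {x | ∃ f ∈ F, x * f⁻¹ ∈ H}

/-- the coboundary of `A` is contained in finitely many cosets of `H` -/
def AI (H : Subgroup G) (A : Set G) : Prop :=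
  ∀ s : G, ∃ F : Set G, F.Finite ∧ ∀ x, x ∈ A → x * s ∉ A → x ∈ Nb H F

/-- every set with finite coboundary is finite or cofinite -/
def OneEnd (Q : Type*) [Group Q] : Prop :=
  ∀ C : Set Q, (∀ s : Q, {x | x ∈ C ∧ x * s ∉ C}.Finite) → C.Finite ∨ Cᶜ.Finite

lemma AI.compl {H : Subgroup G} {A : Set G} (h : AI H A) : AI H Aᶜ := by
  intro s
  obtain ⟨F, hF, hF'⟩ := h s⁻¹
  refine ⟨(fun f => f * s⁻¹) '' F, hF.image _, fun x hx hxs => ?_⟩
  have hxs' : x * s ∈ A := by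
    by_contra hcon
    exact hxs hcon
  obtain ⟨f, hf, hf'⟩ := hF' (x * s) hxs' (by rwa [mul_inv_cancel_right])
  refine ⟨f * s⁻¹, ⟨f, hf, rfl⟩, ?_⟩
  rwa [mul_inv_rev, inv_inv, ← mul_assoc]

lemma fin_inter {H : Subgroup G} {γ : G} (hI : {h | h ∈ H ∧ γ⁻¹ * h * γ ∈ H}.Finite)
    {F F' : Set G} (hF : F.Finite) (hF' : F'.Finite) :
    {x | x ∈ Nb H F ∧ γ⁻¹ * x ∈ Nb H F'}.Finite := by
  have h1 : ∀ f f' : G, {x | x * f⁻¹ ∈ H ∧ γ⁻¹ * x * f'⁻¹ ∈ H}.Finite := by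
    intro f f'
    rcases Set.eq_empty_or_nonempty {x | x * f⁻¹ ∈ H ∧ γ⁻¹ * x * f'⁻¹ ∈ H} with h0 | ⟨y, hy1, hy2⟩
    · rw [h0]; exact Set.finite_empty
    · refine (hI.image fun z => z * y).subset ?_
      rintro x ⟨hx1, hx2⟩
      refine ⟨x * y⁻¹, ⟨?_, ?_⟩, inv_mul_cancel_right _ _⟩
      · have := H.mul_mem hx1 (H.inv_mem hy1)
        convert this using 1
        group
      · have := H.mul_mem hx2 (H.inv_mem hy2)
        convert this using 1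
        group
  refine (hF.biUnion fun f _ => hF'.biUnion fun f' _ => h1 f f').subset ?_
  rintro x ⟨⟨f, hf, hf1⟩, f', hf', hf2⟩
  exact mem_biUnion hf (mem_biUnion hf' ⟨hf1, hf2⟩)

lemma mul_right_fin {S : Set G} (hS : S.Finite) (s : G) : {x | x * s ∈ S}.Finite :=
  hS.preimage (mul_left_injective s).injOn

lemma mul_left_fin {S : Set G} (hS : S.Finite) (s : G) : {x | s * x ∈ S}.Finite :=
  hS.preimage (mul_right_injective s).injOn

/-- a halfspace which is mapped into itself up to a finite set -/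
lemma pair_of_nested {H : Subgroup G} {A : Set G} (hA : AI H A) {γ : G}
    (hI : {h | h ∈ H ∧ γ⁻¹ * h * γ ∈ H}.Finite) (hn : {x | x ∈ A ∧ γ * x ∉ A}.Finite) :
    Pair γ {x | γ⁻¹ * x ∈ A} Aᶜ := by
  have hBA : {x | γ⁻¹ * x ∈ A ∧ x ∉ A}.Finite := by
    refine (mul_left_fin hn γ⁻¹).subset ?_
    rintro x ⟨h1, h2⟩
    exact ⟨h1, by rwa [mul_inv_cancel_left]⟩
  refine ⟨fun s => ?_, ?_⟩
  · obtain ⟨F, hF, hF'⟩ := hA s
    refine ((hBA.union (mul_right_fin hBA s)).union (fin_inter hI hF hF)).subset ?_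
    rintro x ⟨h1, h2⟩
    have h1' : γ⁻¹ * x ∈ A := h1
    by_cases hx : x ∈ A
    · by_cases hxs : γ⁻¹ * (x * s) ∈ A
      · exact Or.inl (Or.inr ⟨hxs, h2⟩)
      · refine Or.inr ⟨hF' x hx h2, hF' _ h1' ?_⟩
        rwa [mul_assoc]
    · exact Or.inl (Or.inl ⟨h1', hx⟩)
  · refine Set.finite_empty.subset ?_
    rintro x ⟨h1, h2⟩
    refine h1 fun h3 => h2 ?_
    show γ⁻¹ * (γ * x) ∈ A
    rwa [inv_mul_cancel_left]

/-- a one-ended subgroup with a finite intersection is on one side of a halfspace -/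
lemma side {H : Subgroup G} (hH : OneEnd H) {A : Set G} (hA : AI H A) {γ : G}
    (hI : {h | h ∈ H ∧ γ⁻¹ * h * γ ∈ H}.Finite) :
    (∀ F : Set G, F.Finite → {x | x ∈ Nb H F ∧ γ⁻¹ * x ∈ A}.Finite) ∨
    (∀ F : Set G, F.Finite → {x | x ∈ Nb H F ∧ γ⁻¹ * x ∈ Aᶜ}.Finite) := by
  have key : ∀ P : Set G, AI H P → {h : H | γ⁻¹ * (h : G) ∈ P}.Finite →
      ∀ F : Set G, F.Finite → {x | x ∈ Nb H F ∧ γ⁻¹ * x ∈ P}.Finite := by
    intro P hP hfin F hF
    have h1 : ∀ f ∈ F, {x | x * f⁻¹ ∈ H ∧ γ⁻¹ * x ∈ P}.Finite := by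
      intro f _
      obtain ⟨F', hF', hF''⟩ := hP f⁻¹
      have h2 : {x | x ∈ Nb H {f} ∧ γ⁻¹ * x ∈ Nb H F'}.Finite :=
        fin_inter hI (Set.finite_singleton f) hF'
      have h3 : (((↑) : H → G) '' {h : H | γ⁻¹ * (h : G) ∈ P}).Finite := hfin.image _
      refine ((mul_right_fin h3 f⁻¹).union h2).subset ?_
      rintro x ⟨hx1, hx2⟩
      by_cases hx3 : γ⁻¹ * (x * f⁻¹) ∈ P
      · exact Or.inl ⟨⟨x * f⁻¹, hx1⟩, hx3, rfl⟩
      · refine Or.inr ⟨⟨f, rfl, hx1⟩, hF'' _ hx2 ?_⟩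
        rwa [mul_assoc]
    refine (hF.biUnion h1).subset ?_
    rintro x ⟨⟨f, hf, hf1⟩, hx⟩
    exact mem_biUnion hf ⟨hf1, hx⟩
  rcases hH {h : H | γ⁻¹ * (h : G) ∈ A} (fun s => by
    obtain ⟨F, hF, hF'⟩ := hA (s : G)
    have h2 : {x | x ∈ Nb H {1} ∧ γ⁻¹ * x ∈ Nb H F}.Finite :=
      fin_inter hI (Set.finite_singleton 1) hF
    refine (h2.preimage (Subtype.val_injective.injOn)).subset ?_
    rintro h ⟨h3, h4⟩
    refine ⟨⟨1, rfl, by simp⟩, hF' _ h3 ?_⟩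
    have h4' : ¬ (γ⁻¹ * ((h * s : H) : G) ∈ A) := h4
    rwa [Subgroup.coe_mul, ← mul_assoc] at h4') with h | h
  · exact Or.inl (key A hA h)
  · exact Or.inr (key Aᶜ hA.compl h)

/-- corners with finite coboundary -/
lemma corner (hG1 : OneEnd G) {H : Subgroup G} {P Q : Set G} (hP : AI H P) (hQ : AI H Q) {γ : G}
    (h1 : ∀ F : Set G, F.Finite → {x | x ∈ Nb H F ∧ γ⁻¹ * x ∈ Q}.Finite)
    (h2 : ∀ F : Set G, F.Finite → {x | x ∈ Nb H F ∧ γ * x ∈ P}.Finite) (hPc : Pᶜ.Infinite) :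
    {x | x ∈ P ∧ γ⁻¹ * x ∈ Q}.Finite := by
  rcases hG1 {x | x ∈ P ∧ γ⁻¹ * x ∈ Q} (fun s => by
    obtain ⟨F, hF, hF'⟩ := hP s
    obtain ⟨F', hF1, hF1'⟩ := hQ s
    refine ((h1 F hF).union (mul_left_fin (h2 F' hF1) γ⁻¹)).subset ?_
    rintro x ⟨⟨h3, h4⟩, h5⟩
    by_cases h6 : x * s ∈ P
    · right
      refine ⟨hF1' _ h4 ?_, by rwa [mul_inv_cancel_left]⟩
      intro h7
      exact h5 ⟨h6, by rwa [← mul_assoc]⟩
    · exact Or.inl ⟨hF' x h3 h6, h4⟩) with h | h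
  · exact h
  · exact (hPc (h.subset fun x hx hx' => hx hx'.1)).elim

/-- the main case analysis -/
theorem nested_of_oneEnd (hG1 : OneEnd G) {H : Subgroup G} (hHi : (H : Set G).Infinite)
    (hH1 : OneEnd H) {A : Set G} (hA : AI H A) {g : G} {m : ℕ} (hm : 0 < m)
    (hp : ∀ᶠ j : ℕ in atTop, g ^ j ∈ A) (hn : ∀ᶠ j : ℕ in atTop, g⁻¹ ^ j ∉ A)
    (hI : {h | h ∈ H ∧ (g ^ m)⁻¹ * h * g ^ m ∈ H}.Finite) :
    ¬ IsOfFinOrder g ∧ A.Infinite ∧ Aᶜ.Infinite ∧ {x | x ∈ A ∧ g ^ m * x ∉ A}.Finite := by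
  have hord : ¬ IsOfFinOrder g := by
    intro hcon
    obtain ⟨n, hn0, hn1⟩ := isOfFinOrder_iff_pow_eq_one.1 hcon
    obtain ⟨N, hN⟩ := eventually_atTop.1 (hp.and hn)
    obtain ⟨h1, h2⟩ := hN (n * N) (Nat.le_mul_of_pos_left N hn0)
    rw [inv_pow, pow_mul, hn1, one_pow, inv_one] at h2
    rw [pow_mul, hn1, one_pow] at h1
    exact h2 h1
  have hord' : ¬ IsOfFinOrder g⁻¹ := by rwa [isOfFinOrder_inv_iff]
  have inf_of : ∀ (k : G), ¬ IsOfFinOrder k → ∀ S : Set G, (∀ᶠ j : ℕ in atTop, k ^ j ∈ S) →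
      S.Infinite := by
    intro k hk S hS hcon
    have h1 := ev_avoid hk hcon 1
    obtain ⟨j, h2, h3⟩ := (hS.and h1).exists
    rw [mul_one] at h3
    exact h3 h2
  have hAi : A.Infinite := inf_of g hord A hp
  have hAci : Aᶜ.Infinite := inf_of g⁻¹ hord' Aᶜ hn
  set γ : G := g ^ m with hγ
  have hγo : ¬ IsOfFinOrder γ := by
    intro hcon
    obtain ⟨n, hn, hn'⟩ := isOfFinOrder_iff_pow_eq_one.1 hcon
    refine hord (isOfFinOrder_iff_pow_eq_one.2 ⟨m * n, by positivity, ?_⟩)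
    rw [pow_mul]
    exact hn'
  have hI' : {h | h ∈ H ∧ γ⁻¹⁻¹ * h * γ⁻¹ ∈ H}.Finite := by
    refine (hI.image fun h => γ⁻¹ * h * γ).subset ?_
    rintro h ⟨h1, h2⟩
    rw [inv_inv] at h2
    refine ⟨γ * h * γ⁻¹, ⟨h2, ?_⟩, ?_⟩
    · convert h1 using 1; group
    · show γ⁻¹ * (γ * h * γ⁻¹) * γ = h
      group
  have tnd : Tendsto (fun j : ℕ => j + m) atTop atTop := tendsto_add_atTop_nat m
  refine ⟨hord, hAi, hAci, ?_⟩
  have side1 := side hH1 hA hI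
  have side2 : (∀ F : Set G, F.Finite → {x | x ∈ Nb H F ∧ γ * x ∈ A}.Finite) ∨
      (∀ F : Set G, F.Finite → {x | x ∈ Nb H F ∧ γ * x ∈ Aᶜ}.Finite) := by
    have := side hH1 hA hI'
    simpa only [inv_inv] using this
  rcases side1 with h1 | h1 <;> rcases side2 with h2 | h2
  · -- `A ∩ γ A` finite
    exfalso
    have h3 := corner hG1 hA hA h1 h2 hAci
    refine inf_of g hord _ ?_ h3
    filter_upwards [hp, (tendsto_sub_atTop_nat m).eventually hp, eventually_ge_atTop m]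
      with j hj1 hj2 hj3
    refine ⟨hj1, ?_⟩
    have : g ^ j = g ^ m * g ^ (j - m) := by rw [← pow_add]; congr 1; omega
    rw [this, hγ, inv_mul_cancel_left]
    exact hj2
  · -- `Aᶜ ∩ γ A` finite
    have h3 := corner hG1 hA.compl hA h1 h2 (by rwa [compl_compl])
    refine (mul_left_fin h3 γ).subset ?_
    rintro x ⟨h4, h5⟩
    exact ⟨h5, by rwa [inv_mul_cancel_left]⟩
  · -- `A ∩ γ Aᶜ` finite
    exfalso
    have h3 := corner hG1 hA hA.compl h1 h2 hAci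
    have h4 : {x | x ∈ A ∧ γ⁻¹ * x ∉ A}.Finite := h3
    have hpair := pair_of_nested hA hI' h4
    rw [inv_inv] at hpair
    have hγo' : ¬ IsOfFinOrder γ⁻¹ := by rwa [isOfFinOrder_inv_iff]
    have hUi : {x | γ * x ∈ A}.Infinite := by
      intro hcon
      refine hAi ((mul_left_fin hcon γ⁻¹).subset fun x hx => ?_)
      show γ * (γ⁻¹ * x) ∈ A
      rwa [mul_inv_cancel_left]
    rcases hpair.cases hγo' hUi hAci with ⟨h5, -⟩ | h5
    · obtain ⟨n, hn1, hn2⟩ := ((h5 1).and (((tendsto_id.const_mul_atTop' hm).eventually hn))).exists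
      refine hn1.2 ?_
      have : γ⁻¹ ^ n * 1 = g⁻¹ ^ (m * n) := by
        rw [mul_one, hγ, ← inv_pow, pow_mul]
      rw [this]
      exact hn2
    · -- the exceptional pattern
      choose j hj using h5
      obtain ⟨φ, hφ, hinf⟩ : ∃ φ ∈ Ex γ⁻¹ {x | γ * x ∈ A} Aᶜ,
          {x | x ∈ H ∧ γ⁻¹ ^ (j x) * x = φ}.Infinite := by
        by_contra hcon
        push Not at hcon
        refine hHi ((hpair.ex.biUnion fun φ hφ => hcon φ hφ).subset ?_)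
        intro x hx
        exact mem_biUnion (hj x) ⟨hx, rfl⟩
      obtain ⟨y, hy1, hy2⟩ := hinf.nonempty
      have hfin : ((fun x => x * y) '' {h | h ∈ H ∧ γ⁻¹ * h * γ ∈ H}).Finite := hI.image _
      refine hinf (hfin.subset ?_)
      rintro x ⟨hx1, hx2⟩
      have h6 : x * y⁻¹ = γ ^ (j x - j y) := by
        have e1 : x = γ ^ (j x) * φ := by
          rw [← hx2, inv_zpow, mul_inv_cancel_left]
        have e2 : y = γ ^ (j y) * φ := by
          rw [← hy2, inv_zpow, mul_inv_cancel_left]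
        rw [zpow_sub]
        calc x * y⁻¹ = (γ ^ (j x) * φ) * (γ ^ (j y) * φ)⁻¹ := by rw [← e1, ← e2]
          _ = γ ^ (j x) * (γ ^ (j y))⁻¹ := by group
      have h7 : x * y⁻¹ ∈ H := H.mul_mem hx1 (H.inv_mem hy1)
      refine ⟨x * y⁻¹, ⟨h7, ?_⟩, inv_mul_cancel_right _ _⟩
      have h8 : γ⁻¹ * (x * y⁻¹) * γ = x * y⁻¹ := by
        rw [h6]
        group
      rw [h8]
      exact h7
  · -- `Aᶜ ∩ γ Aᶜ` finite
    exfalso
    have h3 := corner hG1 hA.compl hA.compl h1 h2 (by rwa [compl_compl])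
    refine inf_of g⁻¹ hord' _ ?_ h3
    filter_upwards [hn, tnd.eventually hn] with j hj1 hj2
    refine ⟨hj1, ?_⟩
    have : γ⁻¹ * g⁻¹ ^ j = g⁻¹ ^ (j + m) := by
      rw [hγ, ← inv_pow, ← pow_add, add_comm]
    rw [this]
    exact hj2

end Pool.Agent.K6.H99.RO
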