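import Pool.Agent.K6.H99.RO.Flat

/-!
# Rank one isometries have ping-pong pairs
-/

set_option autoImplicit false

open Metric Set Filter Topology
open Pool.Agent.TH60.FP Pool.Agent.TH60.FP.Strip Pool.Agent.Y34.HB Pool.Agent.Y34.EL
open Pool.Agent.T6.H46.RR Pool.Agent.T6.H46.RC

namespace Pool.Agent.K6.H99.RO

variable {X : Type} [MetricSpace X] {G : Type} [Group G] [MulAction G X]

lemma axis_inf [IsIsometricSMul G X] {g : G} {τ : ℝ} {c : ℝ → X} (hτ : 0 < τ)
    (hc : Axis g τ c) : ¬ IsOfFinOrder g := by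
  intro hcon
  obtain ⟨n, hn, hn'⟩ := isOfFinOrder_iff_pow_eq_one.1 hcon
  have h1 := axis_zpow hc n 0
  rw [zpow_natCast, hn', one_smul] at h1
  have h2 := hc.1.injective h1
  have h3 : 0 < ((n : ℤ) : ℝ) * τ := by
    have : (0 : ℝ) < ((n : ℤ) : ℝ) := by exact_mod_cast hn
    positivity
  linarith

theorem pair_of_rank_one (hG : Geo X G) {g : G} {τ : ℝ} {c : ℝ → X} (hτ : 0 < τ)
    (hc : Axis g τ c) (hHP : HP c = ∅) :
    ¬ IsOfFinOrder g ∧ ∃ (m : ℕ) (U V : Set G), 0 < m ∧ U.Infinite ∧ V.Infinite ∧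
      Pair (g ^ m) U V := by
  have := hG.isom
  have := hG.proper
  have hinf := axis_inf hτ hc
  obtain ⟨R, D, hP⟩ := pass_of_axis hG.cn hτ hc hHP
  obtain ⟨hci, -, hR, hD, hpass⟩ := hP
  obtain ⟨m, hm0, hm⟩ : ∃ m : ℕ, 0 < m ∧ 2 * D + 2 ≤ m * τ := by
    obtain ⟨m, hm⟩ := exists_nat_ge ((2 * D + 2) / τ)
    rw [div_le_iff₀ hτ] at hm
    refine ⟨m, ?_, hm⟩
    rcases Nat.eq_zero_or_pos m with h0 | h0
    · rw [h0] at hm; simp at hm; linarith
    · exact h0
  refine ⟨hinf, m, {h | ∃ s, Pj c (h • c 0) s ∧ D + 1 ≤ s}, {h | ∃ s, Pj c (h • c 0) s ∧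
    s ≤ -(D + 1)}, hm0, ?_, ?_, ?_, ?_⟩
  · refine (Set.infinite_of_injective_forall_mem (f := fun n : ℕ => g ^ (n + m) * 1)
      (fun a b hab => ?_) fun n => ?_)
    · have := pow_inj hinf 1 hab
      omega
    · refine ⟨((n + m : ℕ) : ℤ) * τ, ?_, ?_⟩
      · have h1 := axis_zpow hc ((n + m : ℕ) : ℤ) 0
        rw [zpow_natCast, zero_add] at h1
        rw [mul_one, h1]
        exact pj_self _
      · push_cast
        have : (0 : ℝ) ≤ n * τ := by positivity
        nlinarith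
  · have hinf' : ¬ IsOfFinOrder g⁻¹ := by rwa [isOfFinOrder_inv_iff]
    refine (Set.infinite_of_injective_forall_mem (f := fun n : ℕ => g⁻¹ ^ (n + m) * 1)
      (fun a b hab => ?_) fun n => ?_)
    · have := pow_inj hinf' 1 hab
      omega
    · refine ⟨-(((n + m : ℕ) : ℤ) * τ), ?_, ?_⟩
      · have h1 := axis_zpow hc (-((n + m : ℕ) : ℤ)) 0
        rw [zpow_neg, zpow_natCast, zero_add] at h1
        rw [mul_one, inv_pow, h1]
        push_cast
        rw [neg_mul]
        exact pj_self _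
      · push_cast
        have : (0 : ℝ) ≤ n * τ := by positivity
        nlinarith
  · intro s
    refine (finite_short hG (c 0) (R + dist (c 0) (s • c 0))).subset ?_
    rintro x ⟨⟨t, ht, ht'⟩, u, hu, hu'⟩
    show dist (c 0) (x • c 0) ≤ R + dist (c 0) (s • c 0)
    obtain ⟨p, hp1, hp2⟩ := hpass ((x * s) • c 0) (x • c 0) u t 0 hu ht
      (by simp; linarith) (by simp; linarith)
    rw [Int.cast_zero, zero_mul] at hp2
    have h1 : dist ((x * s) • c 0) (x • c 0) = dist (c 0) (s • c 0) := by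
      rw [mul_smul, dist_smul, dist_comm]
    have h2 := dist_triangle (c 0) p (x • c 0)
    have h3 := dist_nonneg (x := (x * s) • c 0) (y := p)
    linarith
  · refine Set.finite_empty.subset ?_
    rintro x ⟨h1, h2⟩
    obtain ⟨s, hs⟩ := exists_pj hci (x • c 0)
    have h3 : -(D + 1) < s := by
      by_contra hcon
      exact h1 ⟨s, hs, not_lt.1 hcon⟩
    refine h2 ⟨s + m * τ, ?_, by linarith⟩
    have h4 : Pj c (g ^ (-m : ℤ) • ((g ^ m * x) • c 0)) s := by
      rw [smul_smul, zpow_neg, zpow_natCast, inv_mul_cancel_left]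
      exact hs
    have h5 := pj_smul hc (-m : ℤ) h4
    convert h5 using 1
    push_cast
    ring

end Pool.Agent.K6.H99.RO
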