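import Pool.Agent.K6.H99.RO.Flat

/-!
# Ping-pong pairs from null orbits in compact spaces
-/

set_option autoImplicit false

open Metric Set Filter Topology
open Pool.Agent.Y34.HB

namespace Pool.Agent.K6.H99.RO

variable {G : Type} [Group G] {K : Type*} [TopologicalSpace K] [MulAction G K]

/-- `x k` and `x s k` are asymptotically equal as `x` leaves the finite sets -/
def Null (G : Type) [Group G] {K : Type*} [TopologicalSpace K] [MulAction G K] (k : K) : Prop :=
  ∀ (s : G) (f : C(K, ℝ)) (ε : ℝ), 0 < ε → {x : G | ε ≤ |f ((x * s) • k) - f (x • k)|}.Finite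

/-- the limit set of an orbit -/
def Lim (G : Type) [Group G] {K : Type*} [TopologicalSpace K] [MulAction G K] (k : K) : Set K :=
  {z | ∀ N ∈ 𝓝 z, {x : G | x • k ∈ N}.Infinite}

lemma isClosed_lim (k : K) : IsClosed (Lim G k) := by
  rw [← isOpen_compl_iff, isOpen_iff_mem_nhds]
  intro z hz
  have h1 : ∃ N ∈ 𝓝 z, {x : G | x • k ∈ N}.Finite := by
    by_contra hcon
    push Not at hcon
    exact hz fun N hN => hcon N hN
  obtain ⟨N, hN, hf⟩ := h1
  filter_upwards [interior_mem_nhds.2 hN] with w hw hcon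
  exact hcon N (mem_interior_iff_mem_nhds.1 hw) hf

lemma smul_lim [ContinuousConstSMul G K] {k z : K} (hz : z ∈ Lim G k) (g : G) :
    g • z ∈ Lim G k := by
  intro N hN
  have h1 : (fun w : K => g • w) ⁻¹' N ∈ 𝓝 z := (continuous_const_smul g).continuousAt hN
  have h2 := hz _ h1
  have h3 : {x : G | x • k ∈ (fun w : K => g • w) ⁻¹' N} = (fun x => g * x) ⁻¹'
      {x : G | x • k ∈ N} := by
    ext x
    simp [mul_smul]
  rw [h3] at h2
  intro hcon
  exact h2 (hcon.preimage (mul_right_injective g).injOn)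

lemma pair_of_cpt [CompactSpace K] [T2Space K] [ContinuousConstSMul G K] {k : K}
    (hk : Null G k) {γ : G} {A B : Set K} (hA : IsClosed A) (hB : IsClosed B)
    (hAB : Disjoint A B) (hg : ∀ z ∈ Lim G k, z ∉ B → γ • z ∈ A)
    (h1 : (Lim G k ∩ B).Nonempty) (h2 : (Lim G k ∩ A).Nonempty) :
    ∃ U V : Set G, U.Infinite ∧ V.Infinite ∧ Pair γ U V := by
  obtain ⟨f, hfA, hfB, -⟩ := exists_continuous_zero_one_of_isClosed hA hB hAB
  obtain ⟨b, hb, hb'⟩ := h1
  obtain ⟨a, ha, ha'⟩ := h2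
  refine ⟨{x | f (x • k) < 1 / 3}, {x | 2 / 3 < f (x • k)}, ?_, ?_, ?_, ?_⟩
  · refine ha {w | f w < 1 / 3} ((isOpen_lt f.continuous continuous_const).mem_nhds ?_)
    show f a < 1 / 3
    rw [hfA ha']; norm_num
  · refine hb {w | 2 / 3 < f w} ((isOpen_lt continuous_const f.continuous).mem_nhds ?_)
    show 2 / 3 < f b
    rw [hfB hb']; norm_num
  · intro s
    refine (hk s f (1 / 3) (by norm_num)).subset ?_
    rintro x ⟨h3, h4⟩
    have h3' : f (x • k) < 1 / 3 := h3
    have h4' : 2 / 3 < f ((x * s) • k) := h4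
    show 1 / 3 ≤ |f ((x * s) • k) - f (x • k)|
    refine le_trans ?_ (le_abs_self _)
    linarith
  · by_contra hinf
    set P : Set G := {x | x ∉ {x | 2 / 3 < f (x • k)} ∧ γ * x ∉ {x | f (x • k) < 1 / 3}} with hP
    have hP' : P.Infinite := hinf
    have : NeBot ((cofinite : Filter G) ⊓ 𝓟 P) := cofinite_inf_principal_neBot_iff.2 hP'
    obtain ⟨z, hz⟩ := exists_clusterPt_of_compactSpace
      (map (fun x : G => x • k) ((cofinite : Filter G) ⊓ 𝓟 P))
    have hz' : ∀ N ∈ 𝓝 z, {x | x • k ∈ N ∧ x ∈ P}.Infinite := by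
      intro N hN hcon
      have h3 := (mapClusterPt_iff_frequently (F := (cofinite : Filter G) ⊓ 𝓟 P)
        (u := fun x : G => x • k)).1 hz N hN
      refine h3 ?_
      rw [eventually_inf_principal]
      filter_upwards [hcon.eventually_cofinite_notMem] with x hx hxP hxN
      exact hx ⟨hxN, hxP⟩
    have hzl : z ∈ Lim G k := fun N hN hcon => hz' N hN (hcon.subset fun x hx => hx.1)
    have hzB : z ∉ B := by
      intro hzB
      obtain ⟨x, hx1, hx2, -⟩ := (hz' {w | 2 / 3 < f w}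
        ((isOpen_lt continuous_const f.continuous).mem_nhds (by
          show 2 / 3 < f z
          rw [hfB hzB]; norm_num))).nonempty
      exact hx2 hx1
    obtain ⟨x, hx1, -, hx2⟩ := (hz' {w | f (γ • w) < 1 / 3}
      ((isOpen_lt (f.continuous.comp (continuous_const_smul γ)) continuous_const).mem_nhds (by
        show f (γ • z) < 1 / 3
        rw [hfA (hg z hzl hzB)]; norm_num))).nonempty
    refine hx2 ?_
    show f ((γ * x) • k) < 1 / 3
    rw [mul_smul]
    exact hx1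

variable {X : Type} [MetricSpace X] [MulAction G X]

theorem rank_one_of_cpt (hG : Geo X G) [Nonempty X] [CompactSpace K] [T2Space K]
    [ContinuousConstSMul G K] {k : K}
    (hk : Null G k) {g : G} {m : ℕ} (hm : 0 < m) {A B : Set K} (hA : IsClosed A)
    (hB : IsClosed B) (hAB : Disjoint A B) (hg : ∀ z ∈ Lim G k, z ∉ B → g ^ m • z ∈ A)
    (h1 : (Lim G k ∩ B).Nonempty) (h2 : ∃ z ∈ Lim G k, z ∉ A ∧ z ∉ B) :
    ∃ (τ : ℝ) (c : ℝ → X), 0 < τ ∧ Axis g τ c ∧ HP c = ∅ := by
  obtain ⟨z, hz, hzA, hzB⟩ := h2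
  have hord : ¬ IsOfFinOrder g := by
    intro hcon
    obtain ⟨n, hn, hn'⟩ := isOfFinOrder_iff_pow_eq_one.1 hcon
    have h3 : ∀ j : ℕ, (g ^ m) ^ j • z ∈ Lim G k := fun j => smul_lim hz _
    have h4 : ∀ j : ℕ, (g ^ m) ^ (j + 1) • z ∈ A := by
      intro j
      induction j with
      | zero => rw [zero_add, pow_one]; exact hg z hz hzB
      | succ j ih =>
        rw [pow_succ', mul_smul]
        exact hg _ (h3 _) fun h5 => (Set.disjoint_left.1 hAB) ih h5
    obtain ⟨l, rfl⟩ : ∃ l, n = l + 1 := ⟨n - 1, by omega⟩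
    have h5 := h4 l
    rw [← pow_mul, mul_comm, pow_mul, hn', one_pow, one_smul] at h5
    exact hzA h5
  obtain ⟨U, V, hU, hV, hp⟩ := pair_of_cpt hk hA hB hAB hg h1
    ⟨g ^ m • z, smul_lim hz _, hg z hz hzB⟩
  exact rank_one_of_pair hG hord hm hU hV hp

theorem rank_one_of_ep (hG : Geo X G) [Nonempty X] [CompactSpace K] [T2Space K]
    [ContinuousConstSMul G K] {k : K} (hk : Null G k)
    (h3 : ∃ a ∈ Lim G k, ∃ b ∈ Lim G k, ∃ z ∈ Lim G k, a ≠ b ∧ a ≠ z ∧ b ≠ z)
    (hep : ∀ C : Set K, IsClosed C → C ⊆ Lim G k → C ≠ Lim G k → ∀ O : Set K, IsOpen O →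
      (O ∩ Lim G k).Nonempty → ∃ g : G, ∀ z ∈ C, g • z ∈ O) :
    ∃ (g : G) (τ : ℝ) (c : ℝ → X), 0 < τ ∧ Axis g τ c ∧ HP c = ∅ := by
  obtain ⟨a, ha, b, hb, z, hz, hab, haz, hbz⟩ := h3
  have hcl : ∀ w : K, IsClosed ({w} : Set K) := fun w => isClosed_singleton
  obtain ⟨f, hf0, hf1, -⟩ := exists_continuous_zero_one_of_isClosed
    ((hcl a).union (hcl z)) (hcl b) (by
      rw [Set.disjoint_singleton_right]
      rintro (h | h)
      · exact hab h.symm
      · exact hbz h)
  have hfa : f a = 0 := hf0 (Or.inl rfl)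
  have hfz : f z = 0 := hf0 (Or.inr rfl)
  have hfb : f b = 1 := hf1 rfl
  have hBc : IsClosed {w | 2 / 3 ≤ f w} := isClosed_le continuous_const f.continuous
  obtain ⟨h, hh0, hh1, -⟩ := exists_continuous_zero_one_of_isClosed
    (hcl a) ((hcl z).union hBc) (by
      rw [Set.disjoint_singleton_left]
      rintro (h | h)
      · exact haz h
      · have h' : 2 / 3 ≤ f a := h
        rw [hfa] at h'; norm_num at h')
  have hha : h a = 0 := hh0 rfl
  have hhz : h z = 1 := hh1 (Or.inl rfl)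
  have hO : IsOpen {w | 2 / 3 < f w} := isOpen_lt continuous_const f.continuous
  obtain ⟨g, hg⟩ := hep (Lim G k ∩ {w | 2 / 3 < f w}ᶜ) ((isClosed_lim k).inter hO.isClosed_compl)
    inter_subset_left (by
      intro hcon
      have h1 : b ∈ Lim G k ∩ {w | 2 / 3 < f w}ᶜ := by rw [hcon]; exact hb
      refine h1.2 ?_
      show 2 / 3 < f b
      rw [hfb]; norm_num) {w | h w < 1 / 3} (isOpen_lt h.continuous continuous_const)
    ⟨a, by show h a < 1 / 3; rw [hha]; norm_num, ha⟩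
  refine ⟨g, rank_one_of_cpt hG hk (g := g) (m := 1) one_pos
    (A := {w | h w ≤ 1 / 3}) (B := {w | 2 / 3 ≤ f w})
    (isClosed_le h.continuous continuous_const) hBc ?_ ?_ ?_ ?_⟩
  · rw [Set.disjoint_left]
    intro w hw hw'
    have h1 : h w ≤ 1 / 3 := hw
    have h2 : h w = 1 := hh1 (Or.inr hw')
    rw [h2] at h1; norm_num at h1
  · intro w hw hwB
    rw [pow_one]
    have h1 : h (g • w) < 1 / 3 := hg w ⟨hw, fun h2 => hwB (by
      have h3 : 2 / 3 < f w := h2
      exact h3.le)⟩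
    exact h1.le
  · exact ⟨b, hb, by show 2 / 3 ≤ f b; rw [hfb]; norm_num⟩
  · refine ⟨z, hz, ?_, ?_⟩
    · intro h1
      have h2 : h z ≤ 1 / 3 := h1
      rw [hhz] at h2; norm_num at h2
    · intro h1
      have h2 : 2 / 3 ≤ f z := h1
      rw [hfz] at h2; norm_num at h2

end Pool.Agent.K6.H99.RO
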