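import Pool.Agent.K6.H99.RO.Pair
import Pool.Agent.T6.H46.RC.Dyn
import Pool.Agent.R632.CZ.Disc

/-!
# The axis of an element with a ping-pong pair does not bound a flat half-plane
-/

set_option autoImplicit false

open Metric Set Filter Topology
open Pool.Agent.TH60.FP Pool.Agent.TH60.FP.Strip Pool.Agent.Y34.HB Pool.Agent.Y34.EL
open Pool.Agent.T6.H46.RR Pool.Agent.T6.H46.RC

namespace Pool.Agent.K6.H99.RO

variable {X : Type} [MetricSpace X] {G : Type} [Group G] [MulAction G X]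

lemma net (hG : Geo X G) (o : X) : ∃ R : ℝ, 0 ≤ R ∧ ∀ z : X, ∃ s : G, dist (s • o) z ≤ R := by
  have := hG.isom
  obtain ⟨K, hK, hcov⟩ := hG.cc
  obtain ⟨D0, hD0⟩ := hK.isBounded.subset_closedBall o
  refine ⟨max D0 0, le_max_right _ _, fun z => ?_⟩
  obtain ⟨g, hg⟩ := hcov z
  refine ⟨g⁻¹, ?_⟩
  have h1 := mem_closedBall.1 (hD0 hg)
  rw [← dist_smul g, smul_inv_smul, dist_comm]
  exact h1.trans (le_max_left _ _)

lemma fin_bound {F : Set G} (hF : F.Finite) (o : X) :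
    ∃ M : ℝ, 0 ≤ M ∧ ∀ φ ∈ F, dist (φ • o) o ≤ M := by
  obtain ⟨M, hM⟩ := (hF.image fun φ => dist (φ • o) o).bddAbove
  exact ⟨max M 0, le_max_right _ _, fun φ hφ => (hM ⟨φ, hφ, rfl⟩).trans (le_max_left _ _)⟩

lemma le_hp {c : ℝ → X} {H : ℝ × NNReal → X} (hH : H ∈ HP c) (t u : ℝ) (s : NNReal) :
    (s : ℝ) ≤ dist (H (t, s)) (c u) := by
  have h1 := hH.1 (t, s) (u, 0)
  rw [hH.2] at h1
  simp only [NNReal.coe_zero, sub_zero] at h1
  exact (le_abs_self _).trans
    (abs_le_of_sq_le_sq (by rw [h1]; nlinarith [sq_nonneg (t - u)]) dist_nonneg)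

/-- points at large height are far from the translates of a finite set -/
lemma avoid {γ : G} {τ : ℝ} {c : ℝ → X} [IsIsometricSMul G X] (hc : Axis γ τ c)
    {H : ℝ × NNReal → X} (hH : H ∈ HP c) {F : Set G} {M R : ℝ}
    (hM : ∀ φ ∈ F, dist (φ • c 0) (c 0) ≤ M) {s : NNReal} (hs : M + R < s) {t : ℝ} {h : G}
    (hh : dist (h • c 0) (H (t, s)) ≤ R) (j : ℤ) : γ ^ j * h ∉ F := by
  intro hcon
  have h1 := hM _ hcon
  have h2 : dist (h • c 0) (c (0 + (-j : ℤ) * τ)) ≤ M := by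
    rw [← axis_zpow hc, ← dist_smul (γ ^ j) (h • c 0), smul_smul, smul_smul, ← zpow_add,
      add_neg_cancel, zpow_zero, one_smul]
    exact h1
  have h3 := le_hp hH t (0 + (-j : ℤ) * τ) s
  have h4 := dist_triangle (H (t, s)) (h • c 0) (c (0 + (-j : ℤ) * τ))
  rw [dist_comm (H (t, s)) (h • c 0)] at h4
  linarith

theorem no_half (hG : Geo X G) {γ : G} {τ : ℝ} {c : ℝ → X} (hτ : 0 < τ) (hc : Axis γ τ c)
    (hγ : ¬ IsOfFinOrder γ) {U V : Set G} (hU : U.Infinite) (hV : V.Infinite)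
    (h : Pair γ U V) : HP c = ∅ := by
  classical
  have := hG.isom
  by_contra hne
  obtain ⟨H, hH⟩ := nonempty_iff_ne_empty.2 hne
  obtain ⟨R, hR, hnet⟩ := net hG (c 0)
  rcases h.cases hγ hU hV with ⟨hp, hn⟩ | hex
  swap
  · obtain ⟨M, hM, hM'⟩ := fin_bound h.ex (c 0)
    obtain ⟨g, hg⟩ := hnet (H (0, ⟨M + R + 1, by linarith⟩))
    obtain ⟨j, hj⟩ := hex g
    exact avoid hc hH hM' (by show M + R < M + R + 1; linarith) hg j hj
  · set S : Set G := {s : G | dist (c 0) (s • c 0) ≤ 2 * R + 2 * τ} with hS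
    have hSf : S.Finite := finite_short hG (c 0) _
    set Φ : Set G := Ex γ U V ∪ ⋃ s ∈ S, {x | x ∈ V ∧ x * s ∈ U} with hΦ
    have hΦf : Φ.Finite := h.ex.union (hSf.biUnion fun s _ => h.symm.ad s)
    obtain ⟨M, hM, hM'⟩ := fin_bound hΦf (c 0)
    set s₀ : NNReal := ⟨M + R + 1, by linarith⟩ with hs₀
    have hs₀' : M + R < s₀ := by show M + R < M + R + 1; linarith
    set q : ℕ → X := fun n => H (2 * n * τ, s₀) with hq
    choose r hr using fun n => hnet (q n)
    have hav : ∀ (n : ℕ) (j : ℤ), γ ^ j * r n ∉ Φ := fun n j =>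
      avoid hc hH hM' hs₀' (hr n) j
    have hqq : ∀ n, dist (q n) (q (n + 1)) = 2 * τ := by
      intro n
      have h1 := hH.1 (2 * n * τ, s₀) (2 * (n + 1 : ℕ) * τ, s₀)
      simp only [sub_self] at h1
      have h2 : dist (q n) (q (n + 1)) ^ 2 = (2 * τ) ^ 2 := by
        rw [hq]
        simp only
        rw [h1]
        push_cast
        ring
      exact (sq_eq_sq₀ dist_nonneg (by linarith)).1 h2
    have hrS : ∀ n, (r n)⁻¹ * r (n + 1) ∈ S := by
      intro n
      show dist (c 0) (((r n)⁻¹ * r (n + 1)) • c 0) ≤ 2 * R + 2 * τ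
      rw [mul_smul, ← dist_smul (r n) (c 0), smul_inv_smul]
      have h1 := dist_triangle4 (r n • c 0) (q n) (q (n + 1)) (r (n + 1) • c 0)
      have h2 := hr n
      have h3 := hr (n + 1)
      rw [dist_comm] at h3
      rw [hqq] at h1
      linarith
    have hstep : ∀ (n : ℕ) (k : ℤ), γ ^ k * r n ∈ V → γ ^ (k - 1) * r (n + 1) ∈ V := by
      intro n k hk
      have h1 : γ ^ k * r (n + 1) ∉ U := by
        intro hcon
        refine hav n k (Or.inr (mem_biUnion (hrS n) ⟨hk, ?_⟩))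
        rwa [mul_assoc, mul_inv_cancel_left]
      by_contra hcon
      refine hav (n + 1) (k - 1) (Or.inl (Or.inr ⟨hcon, ?_⟩))
      rwa [← mul_assoc, mul_self_zpow, sub_add_cancel]
    obtain ⟨n₀, hn₀⟩ := (hn (r 0)).exists
    have hall : ∀ n : ℕ, γ ^ (-(n₀ : ℤ) - n) * r n ∈ V := by
      intro n
      induction n with
      | zero =>
        have := hn₀.1
        rw [inv_pow, ← zpow_natCast, ← zpow_neg] at this
        simpa using this
      | succ n ih =>
        have := hstep n _ ih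
        convert this using 3
        push_cast
        ring
    set F₁ : Set G := {s : G | dist (c 0) (s • c 0) ≤ R + s₀} with hF₁
    have hF₁f : F₁.Finite := finite_short hG (c 0) _
    have hf : ∀ n : ℕ, γ ^ (-(2 * n : ℤ)) * r n ∈ F₁ := by
      intro n
      show dist (c 0) ((γ ^ (-(2 * n : ℤ)) * r n) • c 0) ≤ R + s₀
      rw [← dist_smul (γ ^ (2 * n : ℤ)) (c 0), smul_smul, ← mul_assoc, ← zpow_add,
        add_neg_cancel, zpow_zero, one_mul, axis_zpow hc]
      have h1 := dist_triangle (c (0 + ((2 * n : ℤ) : ℝ) * τ)) (q n) (r n • c 0)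
      have h2 := hr n
      have h3 : dist (c (0 + ((2 * n : ℤ) : ℝ) * τ)) (q n) = s₀ := by
        have h4 := hH.1 (0 + ((2 * n : ℤ) : ℝ) * τ, 0) (2 * n * τ, s₀)
        rw [hH.2] at h4
        have h5 : dist (c (0 + ((2 * n : ℤ) : ℝ) * τ)) (q n) ^ 2 = (s₀ : ℝ) ^ 2 := by
          rw [hq]
          simp only
          rw [h4]
          push_cast
          ring
        exact (sq_eq_sq₀ dist_nonneg s₀.2).1 h5
      rw [dist_comm] at h2
      linarith
    have hend : ∀ᶠ n : ℕ in atTop, ∀ f ∈ F₁, γ ^ n * (γ ^ (-(n₀ : ℤ)) * f) ∉ V := by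
      rw [eventually_all_finite hF₁f]
      exact fun f _ => (hp _).mono fun _ h => h.2
    obtain ⟨n, hn'⟩ := hend.exists
    refine hn' _ (hf n) ?_
    have := hall n
    rw [← mul_assoc, ← mul_assoc, ← zpow_natCast, ← zpow_add, ← zpow_add]
    convert this using 3
    ring

theorem rank_one_of_pair (hG : Geo X G) [Nonempty X] {g : G} (hg : ¬ IsOfFinOrder g) {m : ℕ}
    (hm : 0 < m) {U V : Set G} (hU : U.Infinite) (hV : V.Infinite) (h : Pair (g ^ m) U V) :
    ∃ (τ : ℝ) (c : ℝ → X), 0 < τ ∧ Axis g τ c ∧ HP c = ∅ := by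
  obtain ⟨x⟩ := ‹Nonempty X›
  have := hG.isom
  obtain ⟨τ, c, hτ, hc⟩ := Pool.Agent.R632.CZ.axis_of_infinite hG hg x
  refine ⟨τ, c, hτ, hc, no_half hG (γ := g ^ m) (τ := m * τ) (by positivity) ⟨hc.1, fun t => ?_⟩
    ?_ hU hV h⟩
  · have := axis_zpow hc m t
    rw [zpow_natCast] at this
    rw [this]
    push_cast
    rfl
  · intro hcon
    obtain ⟨n, hn, hn'⟩ := isOfFinOrder_iff_pow_eq_one.1 hcon
    refine hg (isOfFinOrder_iff_pow_eq_one.2 ⟨m * n, by positivity, ?_⟩)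
    rw [pow_mul]
    exact hn'

end Pool.Agent.K6.H99.RO
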