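import Pool.Agent.K6.H99.RO.Slow

/-!
# Oscillation of functions with a small gradient in the absence of rank one isometries
-/

set_option autoImplicit false

open Metric Set Filter Topology
open Pool.Agent.TH60.FP Pool.Agent.TH60.FP.Strip Pool.Agent.Y34.HB Pool.Agent.Y34.EL
open Pool.Agent.T6.H46.RR Pool.Agent.T6.H46.RC

namespace Pool.Agent.K6.H99.RO

variable {X : Type} [MetricSpace X] {G : Type} [Group G] [MulAction G X]

/-- `|x| |f (x s) - f x| ≤ N` for all `s` in `S` and all but finitely many `x` -/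
def Slope (o : X) (S : Finset G) (f : G → ℝ) (N : ℝ) : Prop :=
  ∀ᶠ x : G in cofinite, ∀ s ∈ S, dist o (x • o) * |f (x * s) - f x| ≤ N

lemma Slope.far {o : X} {S : Finset G} {f : G → ℝ} {N : ℝ} (h : Slope o S f N) :
    ∃ ρ : ℝ, ∀ x : G, ρ ≤ len o x → ∀ s ∈ S, len o x * |f (x * s) - f x| ≤ N := by
  have h1 : {x : G | ¬ ∀ s ∈ S, dist o (x • o) * |f (x * s) - f x| ≤ N}.Finite := h
  obtain ⟨M, hM⟩ := (h1.image fun x => len o x).bddAbove
  refine ⟨M + 1, fun x hx => ?_⟩
  by_contra hcon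
  have := hM ⟨x, hcon, rfl⟩
  linarith

/-- variation along a path -/
lemma path_var [IsIsometricSMul G X] {o : X} {R₀ τ ρ V : ℝ} {f : G → ℝ}
    (hnet : ∀ z : X, ∃ s : G, dist (s • o) z ≤ R₀) (hτ : 0 ≤ τ)
    (hV : ∀ x s : G, ρ - R₀ ≤ len o x → dist o (s • o) ≤ 2 * R₀ + τ → |f (x * s) - f x| ≤ V)
    (z : ℕ → X) : ∀ (n : ℕ), (∀ k, k < n → dist (z k) (z (k + 1)) ≤ τ) →
      (∀ k, k ≤ n → ρ ≤ dist o (z k)) → ∀ g h : G, dist (g • o) (z 0) ≤ R₀ →
      dist (h • o) (z n) ≤ R₀ → |f h - f g| ≤ (n + 1) * V := by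
  have step : ∀ (a b : G) (p q : X), dist (a • o) p ≤ R₀ → dist (b • o) q ≤ R₀ →
      dist p q ≤ τ → ρ ≤ dist o p → |f b - f a| ≤ V := by
    intro a b p q ha hb hpq hp
    have h1 := hV a (a⁻¹ * b) (by
      unfold len
      have := dist_triangle o (a • o) p
      linarith) (by
      have h2 : dist o ((a⁻¹ * b) • o) = dist (a • o) (b • o) := by
        rw [mul_smul, ← dist_smul a o, smul_inv_smul]
      rw [h2]
      have h3 := dist_triangle4 (a • o) p q (b • o)
      rw [dist_comm q (b • o)] at h3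
      linarith)
    rwa [mul_inv_cancel_left] at h1
  intro n
  induction n with
  | zero =>
    intro _ hρ g h hg hh
    have := step g h (z 0) (z 0) hg hh (by rw [dist_self]; exact hτ) (hρ 0 le_rfl)
    simpa using this
  | succ n ih =>
    intro hz hρ g h hg hh
    obtain ⟨k, hk⟩ := hnet (z n)
    have h1 := ih (fun k hk => hz k (by omega)) (fun k hk => hρ k (by omega)) g k hg hk
    have h2 := step k h (z n) (z (n + 1)) hk hh (hz n (by omega)) (hρ n (by omega))
    have h3 := abs_sub_le (f h) (f k) (f g)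
    push_cast
    linarith

/-- functions with a small gradient do not separate the ends of an axis which bounds a
half-plane -/
theorem osc_axis (hG : Geo X G) {g : G} {τ : ℝ} {c : ℝ → X} (hτ : 0 < τ)
    (hc : Axis g τ c) {H : ℝ × NNReal → X} (hH : H ∈ HP c) (o : X) :
    ∃ (S : Finset G) (C : ℝ), ∀ (f : G → ℝ) (N : ℝ), 0 ≤ N → Slope o S f N →
      ∀ᶠ n : ℕ in atTop, |f (g ^ n) - f (g⁻¹ ^ n)| ≤ C * N := by
  classical
  have := hG.isom
  obtain ⟨R, hR, hnet'⟩ := net hG o
  set K₀ : ℝ := dist o (c 0) with hK₀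
  have hK0 : 0 ≤ K₀ := dist_nonneg
  set R₀ : ℝ := R + K₀ with hR₀
  have hnet : ∀ z : X, ∃ s : G, dist (s • o) z ≤ R₀ := fun z => by
    obtain ⟨s, hs⟩ := hnet' z
    exact ⟨s, by linarith⟩
  have hS := finite_short hG o (2 * R₀ + τ)
  refine ⟨hS.toFinset, 14 / τ, fun f N hN hf => ?_⟩
  obtain ⟨ρ₀, hρ₀⟩ := hf.far
  obtain ⟨n₀, hn₀⟩ := exists_nat_ge ((2 * (K₀ + R₀) + |ρ₀| + K₀ + R₀ + 1) / τ)
  rw [div_le_iff₀ hτ] at hn₀
  filter_upwards [eventually_ge_atTop n₀] with n hn
  have hn' : 2 * (K₀ + R₀) + |ρ₀| + K₀ + R₀ + 1 ≤ n * τ :=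
    hn₀.trans (mul_le_mul_of_nonneg_right (by exact_mod_cast hn) hτ.le)
  have hR0 : 0 ≤ R₀ := by linarith
  have hρ0 := le_abs_self ρ₀
  have hρ0' := abs_nonneg ρ₀
  set ρ : ℝ := n * τ - K₀ with hρ
  have hρR : 0 < ρ - R₀ := by linarith
  set V : ℝ := N / (ρ - R₀) with hVdef
  have hV : ∀ x s : G, ρ - R₀ ≤ len o x → dist o (s • o) ≤ 2 * R₀ + τ →
      |f (x * s) - f x| ≤ V := by
    intro x s hx hs
    have h1 := hρ₀ x (by linarith) s (by rw [Set.Finite.mem_toFinset]; exact hs)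
    rw [hVdef, le_div_iff₀ hρR, mul_comm]
    exact (mul_le_mul_of_nonneg_right hx (abs_nonneg _)).trans h1
  -- distances in the half-plane
  have hd1 : ∀ (t t' : ℝ) (s s' : NNReal), (t - t') ^ 2 + ((s : ℝ) - s') ^ 2 = τ ^ 2 →
      dist (H (t, s)) (H (t', s')) ≤ τ := by
    intro t t' s s' h1
    have h2 := hH.1 (t, s) (t', s')
    simp only at h2
    rw [h1] at h2
    exact ((sq_eq_sq₀ dist_nonneg hτ.le).1 h2).le
  have hd2 : ∀ (t : ℝ) (s : NNReal), (n * τ ≤ |t| ∨ n * τ ≤ s) → ρ ≤ dist o (H (t, s)) := by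
    intro t s h1
    have h2 := hH.1 (0, 0) (t, s)
    rw [hH.2] at h2
    simp only [NNReal.coe_zero, zero_sub, neg_sq] at h2
    have h3 : n * τ ≤ dist (c 0) (H (t, s)) := by
      have h0 : (0 : ℝ) ≤ n * τ := by positivity
      refine (le_abs_self _).trans (abs_le_of_sq_le_sq ?_ dist_nonneg)
      rw [h2]
      rcases h1 with h1 | h1
      · have : (n * τ) ^ 2 ≤ |t| ^ 2 := pow_le_pow_left₀ h0 h1 2
        rw [sq_abs] at this
        nlinarith [sq_nonneg (s : ℝ)]
      · have : (n * τ) ^ 2 ≤ (s : ℝ) ^ 2 := pow_le_pow_left₀ h0 h1 2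
        nlinarith [sq_nonneg t]
    have h4 := dist_triangle (c 0) o (H (t, s))
    rw [dist_comm (c 0) o] at h4
    linarith
  set T : NNReal := ⟨τ, hτ.le⟩ with hT
  have hTc : (T : ℝ) = τ := rfl
  -- the two vertical segments
  have vert : ∀ (t : ℝ) (a b : G), |t| = n * τ → dist (a • o) (c t) ≤ R₀ →
      dist (b • o) (H (t, n * T)) ≤ R₀ → |f b - f a| ≤ (n + 1) * V := by
    intro t a b ht ha hb
    refine path_var hnet hτ.le hV (fun k : ℕ => H (t, k * T)) n (fun k _ => ?_)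
      (fun k _ => hd2 _ _ (Or.inl ht.ge)) a b ?_ hb
    · refine hd1 _ _ _ _ ?_
      push_cast
      rw [hTc]
      ring
    · show dist (a • o) (H (t, ((0 : ℕ) : NNReal) * T)) ≤ R₀
      rw [Nat.cast_zero, zero_mul, hH.2]
      exact ha
  -- the horizontal segment
  have hor : ∀ (a b : G), dist (a • o) (H (n * τ, n * T)) ≤ R₀ →
      dist (b • o) (H (-(n * τ), n * T)) ≤ R₀ → |f b - f a| ≤ (2 * n + 1) * V := by
    intro a b ha hb
    have h1 := path_var hnet hτ.le hV (fun k : ℕ => H (n * τ - k * τ, n * T)) (2 * n)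
      (fun k _ => by
        refine hd1 _ _ _ _ ?_
        push_cast
        ring) (fun k _ => hd2 _ _ (Or.inr (by push_cast; rw [hTc]))) a b (by
        show dist (a • o) (H (n * τ - ((0 : ℕ) : ℝ) * τ, n * T)) ≤ R₀
        rw [Nat.cast_zero, zero_mul, sub_zero]
        exact ha) (by
        show dist (b • o) (H (n * τ - ((2 * n : ℕ) : ℝ) * τ, n * T)) ≤ R₀
        have e : n * τ - ((2 * n : ℕ) : ℝ) * τ = -(n * τ) := by push_cast; ring
        rw [e]
        exact hb)
    push_cast at h1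
    exact h1
  obtain ⟨a, ha⟩ := hnet (H (n * τ, n * T))
  obtain ⟨b, hb⟩ := hnet (H (-(n * τ), n * T))
  have hg1 : dist (g ^ n • o) (c (n * τ)) ≤ R₀ := by
    have h1 := axis_zpow hc n 0
    rw [zpow_natCast, zero_add, Int.cast_natCast] at h1
    rw [← h1, dist_smul]
    linarith
  have hg2 : dist (g⁻¹ ^ n • o) (c (-(n * τ))) ≤ R₀ := by
    have h1 := axis_zpow hc (-n) 0
    rw [zpow_neg, zpow_natCast, zero_add, Int.cast_neg, Int.cast_natCast, neg_mul] at h1
    rw [← h1, inv_pow, dist_smul]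
    linarith
  have hnτ : (0 : ℝ) ≤ n * τ := by positivity
  have h1 := vert (n * τ) (g ^ n) a (abs_of_nonneg hnτ) hg1 ha
  have h2 := hor a b ha hb
  have h3 := vert (-(n * τ)) (g⁻¹ ^ n) b (by rw [abs_neg, abs_of_nonneg hnτ]) hg2 hb
  have hV0 : 0 ≤ V := div_nonneg hN hρR.le
  have h4 : |f (g ^ n) - f (g⁻¹ ^ n)| ≤ (4 * n + 3) * V := by
    have e : f (g ^ n) - f (g⁻¹ ^ n) = -(f a - f (g ^ n)) + (-(f b - f a)) +
        (f b - f (g⁻¹ ^ n)) := by ring
    rw [e]
    refine (abs_add_three _ _ _).trans ?_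
    rw [abs_neg, abs_neg]
    linarith
  refine h4.trans ?_
  have hn1 : (1 : ℝ) ≤ n := by
    have : n ≠ 0 := by
      rintro rfl
      rw [Nat.cast_zero, zero_mul] at hn'
      linarith
    exact_mod_cast Nat.one_le_iff_ne_zero.2 this
  have h5 : V ≤ N / (n * τ / 2) := by
    refine div_le_div_of_nonneg_left hN (by positivity) ?_
    linarith
  have h6 : (4 * n + 3) * V ≤ (7 * n) * (N / (n * τ / 2)) :=
    mul_le_mul (by linarith) h5 hV0 (by linarith)
  refine h6.trans (le_of_eq ?_)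
  have : (n : ℝ) ≠ 0 := by linarith
  field_simp
  ring

/-- in the absence of rank one isometries functions with a small gradient have a small oscillation
on spheres -/
theorem osc_sphere (hG : Geo X G) (hGC : GC X) (hno : ∀ g : G, ¬ RankOne X g) (o : X) (D : ℝ)
    (hD : 0 ≤ D) :
    ∃ (S : Finset G) (C : ℝ), ∀ (f : G → ℝ) (N : ℝ), 0 ≤ N → Slope o S f N →
      ∃ ρ : ℝ, ∀ g h : G, ρ ≤ dist o (g • o) → |dist o (g • o) - dist o (h • o)| ≤ D →
        |f g - f h| ≤ C * N := by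
  classical
  have := hG.isom
  obtain ⟨B, C', hW⟩ := Pool.Agent.Y914.EL.t_WLK X G hG hGC o 42
    (fun c c' hc hc' => linked hG hno o c c' hc hc') D hD
  have hS := finite_short hG o B
  refine ⟨hS.toFinset, 4 * |C'|, fun f N hN hf => ?_⟩
  obtain ⟨ρ₀, hρ₀⟩ := hf.far
  have key : ∀ g h : G, 2 * |B| + |ρ₀| + 1 + D ≤ len o g → len o g ≤ len o h →
      len o h ≤ len o g + D → |f g - f h| ≤ 4 * |C'| * N := by
    intro g h hg hgh hgh'
    set r : ℝ := len o g with hr
    have hB := le_abs_self B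
    have hB' := abs_nonneg B
    have hρ1 := le_abs_self ρ₀
    have hρ2 := abs_nonneg ρ₀
    have hr0 : 0 ≤ r := dist_nonneg
    obtain ⟨n, x, hn, hx0, hxn, hx1, hx2⟩ := hW r g h hr0 le_rfl (by
      show len o g ≤ r + D
      linarith) hgh hgh'
    have hrB : 0 < r - B := by linarith
    have hstep : ∀ i, i < n → |f (x (i + 1)) - f (x i)| ≤ N / (r - B) := by
      intro i hi
      have h1 := hρ₀ (x i) (by
        have := (hx1 i hi.le).1
        unfold len
        linarith) ((x i)⁻¹ * x (i + 1)) (by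
        rw [Set.Finite.mem_toFinset]; exact hx2 i hi)
      rw [mul_inv_cancel_left] at h1
      rw [le_div_iff₀ hrB, mul_comm]
      refine (mul_le_mul_of_nonneg_right ?_ (abs_nonneg _)).trans h1
      exact (hx1 i hi.le).1
    have hsum : ∀ i, i ≤ n → |f (x i) - f (x 0)| ≤ i * (N / (r - B)) := by
      intro i
      induction i with
      | zero => intro _; simp
      | succ i ih =>
        intro hi
        have h1 := ih (by omega)
        have h2 := hstep i (by omega)
        have h3 := abs_sub_le (f (x (i + 1))) (f (x i)) (f (x 0))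
        push_cast
        linarith
    have h1 := hsum n le_rfl
    rw [hx0, hxn, abs_sub_comm] at h1
    refine h1.trans ?_
    have h2 : (n : ℝ) ≤ |C'| * (r + 1) := hn.trans
      (mul_le_mul_of_nonneg_right (le_abs_self _) (by linarith))
    have h3 : N / (r - B) ≤ N / (r / 2) :=
      div_le_div_of_nonneg_left hN (by linarith) (by linarith)
    have h4 : (n : ℝ) * (N / (r - B)) ≤ |C'| * (2 * r) * (N / (r / 2)) := by
      refine mul_le_mul (h2.trans ?_) h3 (div_nonneg hN hrB.le) (by positivity)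
      exact mul_le_mul_of_nonneg_left (by linarith) (abs_nonneg _)
    refine h4.trans (le_of_eq ?_)
    have : r ≠ 0 := by linarith
    field_simp
    ring
  refine ⟨2 * |B| + |ρ₀| + 1 + D + D, fun g h hg hgh => ?_⟩
  obtain ⟨h1, h2⟩ := abs_le.1 hgh
  rcases le_total (dist o (g • o)) (dist o (h • o)) with h3 | h3
  · exact key g h (by unfold len; linarith) h3 (by unfold len; linarith)
  · rw [abs_sub_comm]
    exact key h g (by unfold len; linarith) h3 (by unfold len; linarith)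

end Pool.Agent.K6.H99.RO
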