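import Mathlib

/-!
# Asymptotically disjoint ping-pong pairs: patterns of orbits
-/

set_option autoImplicit false

open Set Filter

namespace Pool.Agent.K6.H99.RO

variable {G : Type*} [Group G]

/-- `U` and `V` are asymptotically disjoint and `γ` maps the complement of `V` into `U` up to
finitely many elements. -/
structure Pair (γ : G) (U V : Set G) : Prop where
  ad : ∀ s : G, {x | x ∈ U ∧ x * s ∈ V}.Finite
  pp : {x | x ∉ V ∧ γ * x ∉ U}.Finite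

lemma Pair.symm {γ : G} {U V : Set G} (h : Pair γ U V) : Pair γ⁻¹ V U := by
  refine ⟨fun s => ?_, ?_⟩
  · refine ((h.ad s⁻¹).image fun x => x * s⁻¹).subset ?_
    rintro x ⟨h1, h2⟩
    exact ⟨x * s, ⟨h2, by rwa [mul_inv_cancel_right]⟩, mul_inv_cancel_right _ _⟩
  · refine (h.pp.image fun x => γ * x).subset ?_
    rintro x ⟨h1, h2⟩
    exact ⟨γ⁻¹ * x, ⟨h2, by rwa [mul_inv_cancel_left]⟩, mul_inv_cancel_left _ _⟩

/-- the exceptional elements -/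
def Ex (γ : G) (U V : Set G) : Set G := {x | x ∈ U ∧ x ∈ V} ∪ {x | x ∉ V ∧ γ * x ∉ U}

lemma Pair.ex {γ : G} {U V : Set G} (h : Pair γ U V) : (Ex γ U V).Finite := by
  refine Set.Finite.union ?_ h.pp
  have := h.ad 1
  simpa using this

lemma pow_inj {γ : G} (hγ : ¬ IsOfFinOrder γ) (x : G) :
    Function.Injective fun n : ℕ => γ ^ n * x := by
  intro a b hab
  exact (injective_pow_iff_not_isOfFinOrder.2 hγ) (mul_right_cancel hab)

lemma ev_avoid {γ : G} (hγ : ¬ IsOfFinOrder γ) {F : Set G} (hF : F.Finite) (x : G) :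
    ∀ᶠ n : ℕ in atTop, γ ^ n * x ∉ F := by
  have h1 : ((fun n : ℕ => γ ^ n * x) ⁻¹' F).Finite := hF.preimage ((pow_inj hγ x).injOn)
  have h2 := h1.eventually_cofinite_notMem
  rw [Nat.cofinite_eq_atTop] at h2
  exact h2

/-- a positive half-orbit is eventually in `U` or eventually in `V` -/
lemma Pair.dich {γ : G} {U V : Set G} (h : Pair γ U V) (hγ : ¬ IsOfFinOrder γ) (x : G) :
    (∀ᶠ n : ℕ in atTop, γ ^ n * x ∈ U ∧ γ ^ n * x ∉ V) ∨
    (∀ᶠ n : ℕ in atTop, γ ^ n * x ∈ V ∧ γ ^ n * x ∉ U) := by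
  obtain ⟨N, hN⟩ := eventually_atTop.1 (ev_avoid hγ h.ex x)
  by_cases hc : ∃ k, N ≤ k ∧ γ ^ k * x ∉ V
  · obtain ⟨k, hk, hkV⟩ := hc
    left
    refine eventually_atTop.2 ⟨k + 1, fun n hn => ?_⟩
    induction n, hn using Nat.le_induction with
    | base =>
      have h1 : γ ^ (k + 1) * x ∈ U := by
        by_contra hcon
        refine hN k hk (Or.inr ⟨hkV, ?_⟩)
        rwa [← mul_assoc, ← pow_succ']
      exact ⟨h1, fun h2 => hN (k + 1) (by omega) (Or.inl ⟨h1, h2⟩)⟩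
    | succ n hn ih =>
      have h1 : γ ^ (n + 1) * x ∈ U := by
        by_contra hcon
        refine hN n (by omega) (Or.inr ⟨ih.2, ?_⟩)
        rwa [← mul_assoc, ← pow_succ']
      exact ⟨h1, fun h2 => hN (n + 1) (by omega) (Or.inl ⟨h1, h2⟩)⟩
  · push Not at hc
    right
    refine eventually_atTop.2 ⟨N, fun n hn => ⟨hc n hn, fun h1 => ?_⟩⟩
    exact hN n hn (Or.inl ⟨h1, hc n hn⟩)

/-- the behaviour of the half-orbits at infinity does not depend on the half-orbit -/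
lemma Pair.indep {γ : G} {U V : Set G} (h : Pair γ U V) (hγ : ¬ IsOfFinOrder γ) {x y : G}
    (hx : ∀ᶠ n : ℕ in atTop, γ ^ n * x ∈ U) (hy : ∀ᶠ n : ℕ in atTop, γ ^ n * y ∈ V) : False := by
  have h1 := ev_avoid hγ (h.ad (x⁻¹ * y)) x
  obtain ⟨n, ⟨hn1, hn2⟩, hn3⟩ := ((hx.and hy).and h1).exists
  exact hn3 ⟨hn1, by rw [mul_assoc, mul_inv_cancel_left]; exact hn2⟩

/-- the two possible behaviours at infinity -/
lemma Pair.dich' {γ : G} {U V : Set G} (h : Pair γ U V) (hγ : ¬ IsOfFinOrder γ) :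
    (∀ x, ∀ᶠ n : ℕ in atTop, γ ^ n * x ∈ U ∧ γ ^ n * x ∉ V) ∨
    (∀ x, ∀ᶠ n : ℕ in atTop, γ ^ n * x ∈ V ∧ γ ^ n * x ∉ U) := by
  rcases h.dich hγ 1 with h1 | h1
  · left
    intro x
    rcases h.dich hγ x with h2 | h2
    · exact h2
    · exact (h.indep hγ (h1.mono fun _ h => h.1) (h2.mono fun _ h => h.1)).elim
  · right
    intro x
    rcases h.dich hγ x with h2 | h2
    · exact (h.indep hγ (h2.mono fun _ h => h.1) (h1.mono fun _ h => h.1)).elim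
    · exact h2

/-- a half-orbit which starts in `U` and is eventually outside of `U` hits an exceptional
element -/
lemma leave {γ : G} {U V : Set G} {y : G} (hy : y ∈ U)
    (h : ∀ᶠ n : ℕ in atTop, γ ^ n * y ∉ U) : ∃ k : ℕ, γ ^ k * y ∈ Ex γ U V := by
  classical
  have hex : ∃ n : ℕ, γ ^ n * y ∉ U := h.exists
  have h1 := Nat.find_spec hex
  obtain ⟨k, hk⟩ : ∃ k, Nat.find hex = k + 1 := by
    refine Nat.exists_eq_succ_of_ne_zero fun h0 => ?_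
    rw [h0, pow_zero, one_mul] at h1
    exact h1 hy
  have h2 : γ ^ k * y ∈ U := by
    by_contra hcon
    exact Nat.find_min hex (m := k) (by omega) hcon
  rw [hk] at h1
  refine ⟨k, ?_⟩
  by_cases hV : γ ^ k * y ∈ V
  · exact Or.inl ⟨h2, hV⟩
  · exact Or.inr ⟨hV, by rwa [← mul_assoc, ← pow_succ']⟩

/-- if all orbits are eventually in `V` on both sides then `U` is finite -/
lemma Pair.finU {γ : G} {U V : Set G} (h : Pair γ U V)
    (hp : ∀ x, ∀ᶠ n : ℕ in atTop, γ ^ n * x ∈ V ∧ γ ^ n * x ∉ U)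
    (hn : ∀ x, ∀ᶠ n : ℕ in atTop, γ⁻¹ ^ n * x ∈ V ∧ γ⁻¹ ^ n * x ∉ U) : U.Finite := by
  have h1 : ∀ x, {n : ℕ | γ⁻¹ ^ n * x ∈ U}.Finite := by
    intro x
    obtain ⟨N, hN⟩ := eventually_atTop.1 (hn x)
    refine (finite_lt_nat N).subset fun n hn' => ?_
    by_contra hcon
    exact (hN n (not_lt.1 hcon)).2 hn'
  refine (h.ex.biUnion fun φ _ => (h1 φ).image fun n => γ⁻¹ ^ n * φ).subset ?_
  intro x hx
  obtain ⟨k, hk⟩ := leave (V := V) hx ((hp x).mono fun _ h => h.2)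
  refine mem_biUnion hk ⟨k, ?_, ?_⟩
  · show γ⁻¹ ^ k * (γ ^ k * x) ∈ U
    rw [inv_pow, inv_mul_cancel_left]
    exact hx
  · show γ⁻¹ ^ k * (γ ^ k * x) = x
    rw [inv_pow, inv_mul_cancel_left]

/-- if all orbits go from `U` to `V` then every orbit hits an exceptional element -/
lemma except {γ : G} {U V : Set G}
    (hp : ∀ x, ∀ᶠ n : ℕ in atTop, γ ^ n * x ∈ V ∧ γ ^ n * x ∉ U)
    (hn : ∀ x, ∀ᶠ n : ℕ in atTop, γ⁻¹ ^ n * x ∈ U ∧ γ⁻¹ ^ n * x ∉ V) (x : G) :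
    ∃ j : ℤ, γ ^ j * x ∈ Ex γ U V := by
  obtain ⟨n, hn'⟩ := (hn x).exists
  obtain ⟨k, hk⟩ := leave (V := V) hn'.1 ((hp _).mono fun _ h => h.2)
  refine ⟨k - n, ?_⟩
  rw [sub_eq_add_neg, zpow_add, zpow_natCast, zpow_neg, zpow_natCast, ← inv_pow, mul_assoc]
  exact hk

/-- the classification of the patterns -/
lemma Pair.cases {γ : G} {U V : Set G} (h : Pair γ U V) (hγ : ¬ IsOfFinOrder γ)
    (hU : U.Infinite) (hV : V.Infinite) :
    ((∀ x, ∀ᶠ n : ℕ in atTop, γ ^ n * x ∈ U ∧ γ ^ n * x ∉ V) ∧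
      ∀ x, ∀ᶠ n : ℕ in atTop, γ⁻¹ ^ n * x ∈ V ∧ γ⁻¹ ^ n * x ∉ U) ∨
    ∀ x, ∃ j : ℤ, γ ^ j * x ∈ Ex γ U V := by
  have hγ' : ¬ IsOfFinOrder γ⁻¹ := by rwa [isOfFinOrder_inv_iff]
  rcases h.dich' hγ with h1 | h1 <;> rcases h.symm.dich' hγ' with h2 | h2
  · exact Or.inl ⟨h1, h2⟩
  · exfalso
    refine hV (h.symm.finU h2 ?_)
    rw [inv_inv]
    exact h1
  · exact (hU (h.finU h1 h2)).elim
  · exact Or.inr (except h1 h2)

end Pool.Agent.K6.H99.RO
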