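import Pool.Agent.K6.H99.RO.Bus

/-!
# Rank one isometries and functions with a small gradient
-/

set_option autoImplicit false

open Metric Set Filter Topology
open Pool.Agent.TH60.FP Pool.Agent.TH60.FP.Strip Pool.Agent.Y34.HB Pool.Agent.Y34.EL
open Pool.Agent.T6.H46.RR Pool.Agent.T6.H46.RC

namespace Pool.Agent.K6.H99.RO

/-- a clamp function -/
noncomputable def kap (u : ℝ) : ℝ := max 0 (min 1 ((1 + u) / 2))

lemma kap_mem (u : ℝ) : 0 ≤ kap u ∧ kap u ≤ 1 :=
  ⟨le_max_left _ _, max_le zero_le_one (min_le_left _ _)⟩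

lemma kap_one {u : ℝ} (h : 1 ≤ u) : kap u = 1 := by
  unfold kap
  rw [min_eq_left (by linarith), max_eq_right zero_le_one]

lemma kap_zero {u : ℝ} (h : u ≤ -1) : kap u = 0 := by
  unfold kap
  rw [max_eq_left]
  exact (min_le_right _ _).trans (by linarith)

lemma kap_lip (u v : ℝ) : |kap u - kap v| ≤ |u - v| := by
  unfold kap
  have h1 : |max (0 : ℝ) (min 1 ((1 + u) / 2)) - max 0 (min 1 ((1 + v) / 2))| ≤
      |min 1 ((1 + u) / 2) - min 1 ((1 + v) / 2)| := by
    have := abs_max_sub_max_le_max (0 : ℝ) (min 1 ((1 + u) / 2)) 0 (min 1 ((1 + v) / 2))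
    have e := max_eq_right (abs_nonneg (min 1 ((1 + u) / 2) - min 1 ((1 + v) / 2)))
    rwa [sub_self, abs_zero, e] at this
  have h2 : |min (1 : ℝ) ((1 + u) / 2) - min 1 ((1 + v) / 2)| ≤ |(1 + u) / 2 - (1 + v) / 2| := by
    have := abs_min_sub_min_le_max (1 : ℝ) ((1 + u) / 2) 1 ((1 + v) / 2)
    rwa [sub_self, abs_zero, max_eq_right (abs_nonneg _)] at this
  have h3 : (1 + u) / 2 - (1 + v) / 2 = (u - v) / 2 := by ring
  rw [h3, abs_div, abs_two] at h2
  have := abs_nonneg (u - v)
  linarith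

lemma log_diff {a b : ℝ} (ha : 0 < a) (hb : 0 < b) {m : ℝ} (hm : 0 < m) (h1 : m ≤ a)
    (h2 : m ≤ b) : |Real.log a - Real.log b| ≤ |a - b| / m := by
  have key : ∀ a b : ℝ, 0 < a → 0 < b → m ≤ b → Real.log a - Real.log b ≤ |a - b| / m := by
    intro a b ha hb h2
    rw [← Real.log_div ha.ne' hb.ne']
    refine (Real.log_le_sub_one_of_pos (by positivity)).trans ?_
    have h3 : a / b - 1 = (a - b) / b := by field_simp
    rw [h3]
    refine (div_le_div_of_nonneg_right (le_abs_self _) hb.le).trans ?_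
    exact div_le_div_of_nonneg_left (abs_nonneg _) hm h2
  rw [abs_le]
  refine ⟨?_, key a b ha hb h2⟩
  have := key b a hb ha h1
  rw [abs_sub_comm] at this
  linarith

/-- the real estimate in the transition zone -/
lemma quot_est {F F' L L' l P Q : ℝ} (hl : 4 ≤ l) (hL : 0 < L) (hL' : Real.log l ≤ 2 * L')
    (hF : |F| ≤ 2 * L) (h1 : |F - F'| ≤ P / l) (h2 : |L - L'| ≤ Q / l) :
    |F / L - F' / L'| ≤ 2 * (P + 2 * Q) / (l * Real.log l) := by
  have hlog : 0 < Real.log l := Real.log_pos (by linarith)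
  have hL0 : 0 < L' := by linarith
  have hl0 : 0 < l := by linarith
  have e : F / L - F' / L' = (F - F') / L' + F / L * ((L' - L) / L') := by
    field_simp
    ring
  have h3 : |F / L| ≤ 2 := by
    rw [abs_div, abs_of_pos hL, div_le_iff₀ hL]; exact hF
  have h4 : |(F - F') / L'| ≤ P / l / L' := by
    rw [abs_div, abs_of_pos hL0]
    exact div_le_div_of_nonneg_right h1 hL0.le
  have h5 : |(L' - L) / L'| ≤ Q / l / L' := by
    rw [abs_div, abs_of_pos hL0, abs_sub_comm]
    exact div_le_div_of_nonneg_right h2 hL0.le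
  have h6 : |F / L * ((L' - L) / L')| ≤ 2 * (Q / l / L') := by
    rw [abs_mul]
    exact mul_le_mul h3 h5 (abs_nonneg _) (by norm_num)
  have h7 : |F / L - F' / L'| ≤ (P + 2 * Q) / l / L' := by
    rw [e]
    refine (abs_add_le _ _).trans ((add_le_add h4 h6).trans (le_of_eq ?_))
    ring
  refine h7.trans ?_
  have hPQ : 0 ≤ P + 2 * Q := by
    have hP : 0 ≤ P / l := (abs_nonneg _).trans h1
    have hQ : 0 ≤ Q / l := (abs_nonneg _).trans h2
    have hP' : 0 ≤ P := by
      have := mul_nonneg hP hl0.le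
      rwa [div_mul_cancel₀ _ hl0.ne'] at this
    have hQ' : 0 ≤ Q := by
      have := mul_nonneg hQ hl0.le
      rwa [div_mul_cancel₀ _ hl0.ne'] at this
    linarith
  rw [div_div, div_le_div_iff₀ (by positivity) (by positivity)]
  have : (P + 2 * Q) * (l * Real.log l) ≤ (P + 2 * Q) * (l * (2 * L')) :=
    mul_le_mul_of_nonneg_left (mul_le_mul_of_nonneg_left hL' hl0.le) hPQ
  linarith

variable {X : Type} [MetricSpace X] {G : Type} [Group G] [MulAction G X]

/-- the length of `x` -/
noncomputable def len (o : X) (x : G) : ℝ := dist o (x • o)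

/-- the function which separates the two ends of a rank one axis -/
noncomputable def sf (c : ℝ → X) (o : X) (x : G) : ℝ :=
  kap (BF c (x • o) / Real.log (3 + len o x))

lemma sf_grad [IsIsometricSMul G X] [ProperSpace X] (hX : CN X) {c : ℝ → X} {τ R D : ℝ}
    (h : Pass c τ R D) (o : X) (s : G) : ∃ C : ℝ, ∀ x : G, 2 ≤ len o x →
      |sf c o (x * s) - sf c o x| ≤ C / (len o x * Real.log (len o x)) := by
  set E : ℝ := R + D + τ with hE
  set δ : ℝ := dist o (s • o) with hδ
  set K₀ : ℝ := dist o (c 0) with hK₀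
  have hc := h.1
  have hτ := h.2.1
  have hR := h.2.2.1
  have hD := h.2.2.2.1
  have hE0 : 0 < E := by linarith
  have hδ0 : 0 ≤ δ := dist_nonneg
  have hK0 : 0 ≤ K₀ := dist_nonneg
  set l₀ : ℝ := 4 * (2 + 3 * E + δ + K₀) + Real.exp (2 * δ + 1) + 2 * δ + 4 with hl₀
  have hexp := Real.exp_pos (2 * δ + 1)
  have hl₀4 : 4 ≤ l₀ := by linarith
  have hlogl₀ : 0 < Real.log l₀ := Real.log_pos (by linarith)
  set P : ℝ := 2 * (2 * δ + 6 * E) ^ 2 with hP
  set Q : ℝ := 2 * δ with hQ
  have hPQ : 0 ≤ 2 * (P + 2 * Q) := by positivity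
  refine ⟨2 * (P + 2 * Q) + l₀ * Real.log l₀, fun x hx => ?_⟩
  set l : ℝ := len o x with hl
  have hlog : 0 < Real.log l := Real.log_pos (by linarith)
  have hll : 0 < l * Real.log l := mul_pos (by linarith) hlog
  rcases lt_or_ge l l₀ with hlt | hge
  · -- short elements
    have h1 : |sf c o (x * s) - sf c o x| ≤ 1 := by
      have h2 := kap_mem (BF c ((x * s) • o) / Real.log (3 + len o (x * s)))
      have h3 := kap_mem (BF c (x • o) / Real.log (3 + len o x))
      show |kap _ - kap _| ≤ 1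
      rw [abs_le]
      constructor <;> linarith [h2.1, h2.2, h3.1, h3.2]
    refine h1.trans ?_
    rw [le_div_iff₀ hll, one_mul]
    have h4 : l * Real.log l ≤ l₀ * Real.log l₀ :=
      mul_le_mul hlt.le (Real.log_le_log (by linarith) hlt.le) hlog.le (by linarith)
    linarith
  · -- long elements
    set y : X := x • o with hy
    set y' : X := (x * s) • o with hy'
    have hyy : dist y y' = δ := by rw [hy, hy', mul_smul, dist_smul]
    set l' : ℝ := len o (x * s) with hl'
    have hll' : |l - l'| ≤ δ := by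
      rw [← hyy, hl, hl']
      unfold len
      rw [dist_comm o (x • o), dist_comm o ((x * s) • o)]
      exact abs_dist_sub_le _ _ _
    obtain ⟨hll1, hll2⟩ := abs_le.1 hll'
    have hl'2 : l / 2 ≤ l' := by linarith
    set L : ℝ := Real.log (3 + l) with hL
    set L' : ℝ := Real.log (3 + l') with hL'
    have hL0 : 0 < L := Real.log_pos (by linarith)
    have hL'0 : 0 < L' := Real.log_pos (by linarith)
    have hLu : L ≤ l / 4 + 2 := by
      have h1 := Real.log_le_sub_one_of_pos (x := (3 + l) / 4) (by linarith)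
      rw [Real.log_div (by linarith) (by norm_num)] at h1
      have h2 : Real.log 4 ≤ 2 := by
        have h3 : Real.log 4 = 2 * Real.log 2 := by
          rw [show (4 : ℝ) = 2 ^ 2 by norm_num, Real.log_pow]; push_cast; ring
        have := Real.log_two_lt_d9
        rw [h3]; linarith
      rw [hL]; linarith
    have hLδ : 2 * δ + 1 ≤ L := by
      rw [hL, Real.le_log_iff_exp_le (by linarith)]
      linarith
    have hLL : |L - L'| ≤ Q / l := by
      have h1 := log_diff (a := 3 + l) (b := 3 + l') (m := l / 2) (by linarith) (by linarith)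
        (by linarith) (by linarith) (by linarith)
      refine h1.trans ?_
      have h2 : |3 + l - (3 + l')| ≤ δ := by
        rw [show 3 + l - (3 + l') = l - l' by ring]; exact hll'
      refine (div_le_div_of_nonneg_right h2 (by linarith)).trans (le_of_eq ?_)
      rw [hQ]
      have : l ≠ 0 := by linarith
      field_simp
    have hLlog : Real.log l ≤ 2 * L' := by
      have h1 : Real.log l ≤ Real.log ((3 + l') ^ 2) :=
        Real.log_le_log (by linarith) (by nlinarith)
      rw [Real.log_pow] at h1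
      push_cast at h1
      exact h1
    have hFF := bf_lip hc y y'
    rw [hyy] at hFF
    show |kap (BF c y' / L') - kap (BF c y / L)| ≤ _
    have hres : 2 * (P + 2 * Q) / (l * Real.log l) ≤
        (2 * (P + 2 * Q) + l₀ * Real.log l₀) / (l * Real.log l) := by
      refine div_le_div_of_nonneg_right ?_ hll.le
      have : 0 ≤ l₀ * Real.log l₀ := by positivity
      linarith
    refine le_trans ?_ hres
    rcases le_or_gt |BF c y| (2 * L) with hF | hF
    · obtain ⟨s₀, hs₀⟩ := exists_pj hc y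
      obtain ⟨s₁, hs₁⟩ := exists_pj hc y'
      have h1 := bf_proj h hs₀
      have h2 : |s₀| ≤ L + 2 * E := by
        obtain ⟨h3, h4⟩ := abs_le.1 h1
        obtain ⟨h5, h6⟩ := abs_le.1 hF
        rw [abs_le]
        constructor <;> linarith
      have h3 : l - K₀ - |s₀| ≤ dist y (c s₀) := by
        have h4 := dist_triangle4 o (c 0) (c s₀) y
        rw [hc.dist_eq, Real.dist_eq, zero_sub, abs_neg, dist_comm (c s₀) y] at h4
        have h5 : l = dist o y := rfl
        linarith
      have h4 : l / 2 ≤ dist y (c s₀) - E - δ := by linarith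
      have h5 := bf_grad hX h hs₀ hs₁ (by rw [hyy]; linarith)
      rw [hyy] at h5
      have h6 : |BF c y - BF c y'| ≤ P / l := by
        refine h5.trans ((div_le_div_of_nonneg_left (sq_nonneg _) (by linarith) h4).trans
          (le_of_eq ?_))
        rw [hP, ← hE, ← hQ]
        have : l ≠ 0 := by linarith
        field_simp
      have h7 := quot_est (l := l) (by linarith) hL0 hLlog hF h6 hLL
      rw [abs_sub_comm]
      exact (kap_lip _ _).trans h7
    · have hLL1 : L' ≤ L + 1 := by
        obtain ⟨h1, h2⟩ := abs_le.1 hLL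
        have h3 : Q / l ≤ 1 := by
          rw [div_le_one (by linarith)]; linarith
        linarith
      have h0 : 0 ≤ 2 * (P + 2 * Q) / (l * Real.log l) := div_nonneg hPQ hll.le
      rcases le_total 0 (BF c y) with h1 | h1
      · rw [abs_of_nonneg h1] at hF
        obtain ⟨h2, h3⟩ := abs_le.1 hFF
        rw [kap_one (u := BF c y / L) (by rw [le_div_iff₀ hL0]; linarith),
          kap_one (u := BF c y' / L') (by rw [le_div_iff₀ hL'0]; linarith), sub_self, abs_zero]
        exact h0
      · rw [abs_of_nonpos h1] at hF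
        obtain ⟨h2, h3⟩ := abs_le.1 hFF
        rw [kap_zero (u := BF c y / L) (by rw [div_le_iff₀ hL0]; linarith),
          kap_zero (u := BF c y' / L') (by rw [div_le_iff₀ hL'0]; linarith), sub_self, abs_zero]
        exact h0

lemma sf_ends [IsIsometricSMul G X] {g : G} {τ : ℝ} {c : ℝ → X} (hτ : 0 < τ)
    (hc : Axis g τ c) (o : X) :
    (∀ᶠ n : ℕ in atTop, sf c o (g ^ n) = 1) ∧ ∀ᶠ n : ℕ in atTop, sf c o (g⁻¹ ^ n) = 0 := by
  set K₀ : ℝ := dist o (c 0) with hK₀
  have hK0 : 0 ≤ K₀ := dist_nonneg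
  have hci := hc.1
  have key : ∀ i : ℤ, |BF c (g ^ i • o) - 2 * (i * τ)| ≤ 2 * K₀ ∧
      len o (g ^ i) ≤ |(i : ℝ)| * τ + 2 * K₀ := by
    intro i
    have h1 := axis_zpow hc i 0
    rw [zero_add] at h1
    constructor
    · have h2 := bf_lip hci (g ^ i • o) (g ^ i • c 0)
      rw [dist_smul, h1, bf_axis hci] at h2
      exact h2
    · unfold len
      have h2 := dist_triangle4 o (c 0) (g ^ i • c 0) (g ^ i • o)
      rw [dist_smul, dist_comm (c 0) o] at h2
      have h3 : dist (c 0) (g ^ i • c 0) = |(i : ℝ)| * τ := by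
        rw [h1, hci.dist_eq, Real.dist_eq, zero_sub, abs_neg, abs_mul, abs_of_pos hτ]
      linarith
  obtain ⟨N, hN⟩ := exists_nat_ge ((4 * K₀ + 2) / τ)
  rw [div_le_iff₀ hτ] at hN
  have hlogb : ∀ i : ℤ, 4 * K₀ + 2 ≤ |(i : ℝ)| * τ → 0 < Real.log (3 + len o (g ^ i)) ∧
      Real.log (3 + len o (g ^ i)) ≤ 2 * (|(i : ℝ)| * τ) - 2 * K₀ := by
    intro i hi
    have h1 := (key i).2
    have h0 : 0 ≤ len o (g ^ i) := dist_nonneg
    refine ⟨Real.log_pos (by linarith), ?_⟩
    have h2 := Real.log_le_sub_one_of_pos (x := 3 + len o (g ^ i)) (by linarith)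
    linarith
  constructor
  · filter_upwards [eventually_ge_atTop N] with n hn
    have h0 : |((n : ℤ) : ℝ)| = n := by rw [Int.cast_natCast, abs_of_nonneg (Nat.cast_nonneg n)]
    have hn' : 4 * K₀ + 2 ≤ (n : ℝ) * τ :=
      hN.trans (mul_le_mul_of_nonneg_right (by exact_mod_cast hn) hτ.le)
    have h1 := hlogb n (by rw [h0]; exact hn')
    have h2 := (key n).1
    rw [h0, zpow_natCast] at h1
    rw [zpow_natCast, Int.cast_natCast] at h2
    refine kap_one ?_
    rw [le_div_iff₀ h1.1, one_mul]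
    obtain ⟨h3, h4⟩ := abs_le.1 h2
    linarith [h1.2]
  · filter_upwards [eventually_ge_atTop N] with n hn
    have h0 : |((-(n : ℤ) : ℤ) : ℝ)| = n := by
      rw [Int.cast_neg, Int.cast_natCast, abs_neg, abs_of_nonneg (Nat.cast_nonneg n)]
    have hn' : 4 * K₀ + 2 ≤ (n : ℝ) * τ :=
      hN.trans (mul_le_mul_of_nonneg_right (by exact_mod_cast hn) hτ.le)
    have h1 := hlogb (-n) (by rw [h0]; exact hn')
    have h2 := (key (-n)).1
    have e : g ^ (-(n : ℤ)) = g⁻¹ ^ n := by rw [zpow_neg, zpow_natCast, inv_pow]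
    rw [h0, e] at h1
    rw [e, Int.cast_neg, Int.cast_natCast] at h2
    refine kap_zero ?_
    rw [div_le_iff₀ h1.1]
    obtain ⟨h3, h4⟩ := abs_le.1 h2
    linarith [h1.2]

/-- a rank one isometry gives a function with a very small gradient which separates the ends -/
theorem slow_of_rank_one (hG : Geo X G) {g : G} {τ : ℝ} {c : ℝ → X} (hτ : 0 < τ)
    (hc : Axis g τ c) (hHP : HP c = ∅) (o : X) :
    ∃ f : G → ℝ, (∀ x, 0 ≤ f x ∧ f x ≤ 1) ∧
      (∀ s : G, ∃ C : ℝ, ∀ x : G, 2 ≤ dist o (x • o) →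
        |f (x * s) - f x| ≤ C / (dist o (x • o) * Real.log (dist o (x • o)))) ∧
      (∀ᶠ n : ℕ in atTop, f (g ^ n) = 1) ∧ ∀ᶠ n : ℕ in atTop, f (g⁻¹ ^ n) = 0 := by
  have := hG.isom
  have := hG.proper
  obtain ⟨R, D, hP⟩ := pass_of_axis hG.cn hτ hc hHP
  exact ⟨sf c o, fun x => kap_mem _, fun s => sf_grad hG.cn hP o s, sf_ends hτ hc o⟩

end Pool.Agent.K6.H99.RO
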