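import Pool.Agent.K6.H99.RO.Codim

/-!
# Ping-pong pairs from walls
-/

set_option autoImplicit false

open Metric Set Filter Topology Pointwise
open Pool.Agent.Y34.HB

namespace Pool.Agent.K6.H99.RO

variable {G : Type} [Group G] {Y : Type*} [MulAction G Y]

/-- any two points are separated by only finitely many translates of `h` -/
def FinSep (G : Type) [Group G] {Y : Type*} [MulAction G Y] (h : Set Y) : Prop :=
  ∀ x y : Y, {A : Set Y | (∃ k : G, A = k • h) ∧ x ∈ A ∧ y ∉ A}.Finite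

lemma ai_of_sep {h : Set Y} (hs : FinSep G h) (y : Y) :
    AI (MulAction.stabilizer G h) {x : G | x • y ∈ h} := by
  classical
  intro s
  choose! k hk using fun (A : Set Y) (hA : ∃ k : G, A = k • h) => hA
  refine ⟨(fun A => (k A)⁻¹) '' {A : Set Y | (∃ k : G, A = k • h) ∧ y ∈ A ∧ s • y ∉ A},
    (hs y (s • y)).image _, fun x hx hxs => ?_⟩
  have hx' : x • y ∈ h := hx
  have hxs' : (x * s) • y ∉ h := hxs
  have h0 : ∃ k : G, x⁻¹ • h = k • h := ⟨x⁻¹, rfl⟩
  refine ⟨(k (x⁻¹ • h))⁻¹, ⟨x⁻¹ • h, ⟨h0, ?_, ?_⟩, rfl⟩, ?_⟩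
  · rw [Set.mem_inv_smul_set_iff]; exact hx'
  · rw [Set.mem_inv_smul_set_iff, smul_smul]; exact hxs'
  · rw [inv_inv, MulAction.mem_stabilizer_iff, mul_smul, ← hk _ h0, smul_inv_smul]

lemma fin_stab {h : Set Y} {γ : G}
    (hf : ((MulAction.stabilizer G h ⊓ MulAction.stabilizer G (γ • h) : Subgroup G) :
      Set G).Finite) :
    {k | k ∈ MulAction.stabilizer G h ∧ γ⁻¹ * k * γ ∈ MulAction.stabilizer G h}.Finite := by
  refine hf.subset ?_
  rintro k ⟨h1, h2⟩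
  refine ⟨h1, ?_⟩
  show k ∈ MulAction.stabilizer G (γ • h)
  rw [MulAction.mem_stabilizer_iff] at h2 ⊢
  rw [mul_smul, mul_smul, inv_smul_eq_iff] at h2
  exact h2

variable {X : Type} [MetricSpace X] [MulAction G X]

theorem rank_one_of_nested (hG : Geo X G) [Nonempty X] {h : Set Y} (hs : FinSep G h) {g : G}
    {m : ℕ} (hm : 0 < m) (hn : g ^ m • h ⊂ h)
    (hf : ((MulAction.stabilizer G h ⊓ MulAction.stabilizer G (g ^ m • h) : Subgroup G) :
      Set G).Finite) :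
    ∃ (τ : ℝ) (c : ℝ → X), 0 < τ ∧ Axis g τ c ∧ HP c = ∅ := by
  obtain ⟨hn1, hn2⟩ := hn
  obtain ⟨y, hy, hy'⟩ := not_subset.1 hn2
  set γ : G := g ^ m with hγ
  have hsub : ∀ j : ℕ, γ ^ (j + 1) • h ⊆ γ • h := by
    intro j
    induction j with
    | zero => rw [zero_add, pow_one]
    | succ j ih =>
      rw [pow_succ', mul_smul]
      exact Set.smul_set_mono (ih.trans hn1)
  have hpos : ∀ j : ℕ, γ ^ (j + 1) • y ∈ h := fun j =>
    hn1 (hsub j (Set.smul_mem_smul_set hy))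
  have hneg : ∀ j : ℕ, γ⁻¹ ^ (j + 1) • y ∉ h := by
    intro j hcon
    rw [inv_pow, ← Set.mem_smul_set_iff_inv_smul_mem] at hcon
    exact hy' (hsub j hcon)
  have hγo : ¬ IsOfFinOrder γ := by
    intro hcon
    obtain ⟨n, hn0, hn'⟩ := isOfFinOrder_iff_pow_eq_one.1 hcon
    obtain ⟨l, rfl⟩ : ∃ l, n = l + 1 := ⟨n - 1, by omega⟩
    have h1 := hsub l (Set.smul_mem_smul_set hy)
    rw [hn', one_smul] at h1
    exact hy' h1
  have hγo' : ¬ IsOfFinOrder γ⁻¹ := by rwa [isOfFinOrder_inv_iff]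
  have hord : ¬ IsOfFinOrder g := fun hcon => hγo hcon.pow
  have hp := pair_of_nested (ai_of_sep hs y) (fin_stab hf) (by
    refine Set.finite_empty.subset ?_
    rintro x ⟨h1, h2⟩
    refine h2 ?_
    show (γ * x) • y ∈ h
    rw [mul_smul]
    exact hn1 (Set.smul_mem_smul_set h1))
  refine rank_one_of_pair hG hord hm ?_ ?_ hp
  · refine Set.infinite_of_injective_forall_mem (f := fun j : ℕ => γ ^ (j + 2) * 1)
      (fun a b hab => by have := pow_inj hγo 1 hab; omega) fun j => ?_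
    show (γ⁻¹ * (γ ^ (j + 2) * 1)) • y ∈ h
    rw [mul_one, show j + 2 = (j + 1) + 1 by ring, pow_succ' γ (j + 1), inv_mul_cancel_left]
    exact hpos j
  · refine Set.infinite_of_injective_forall_mem (f := fun j : ℕ => γ⁻¹ ^ (j + 1) * 1)
      (fun a b hab => by have := pow_inj hγo' 1 hab; omega) fun j => ?_
    rw [mul_one]
    exact hneg j

theorem rank_one_of_oneEnd (hG : Geo X G) [Nonempty X] {h : Set Y} (hs : FinSep G h)
    (hG1 : OneEnd G) (hHi : (MulAction.stabilizer G h : Set G).Infinite)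
    (hH1 : OneEnd (MulAction.stabilizer G h)) {y : Y} {g : G} {m : ℕ} (hm : 0 < m)
    (hp : ∀ᶠ j : ℕ in atTop, g ^ j • y ∈ h) (hn : ∀ᶠ j : ℕ in atTop, g⁻¹ ^ j • y ∉ h)
    (hf : ((MulAction.stabilizer G h ⊓ MulAction.stabilizer G (g ^ m • h) : Subgroup G) :
      Set G).Finite) :
    ∃ (τ : ℝ) (c : ℝ → X), 0 < τ ∧ Axis g τ c ∧ HP c = ∅ := by
  obtain ⟨h1, h2, h3, h4⟩ := nested_of_oneEnd hG1 hHi hH1 (ai_of_sep hs y) (g := g) hm hp hn
    (fin_stab hf)
  refine rank_one_of_pair hG h1 hm ?_ h3 (pair_of_nested (ai_of_sep hs y) (fin_stab hf) h4)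
  intro hcon
  refine h2 ((mul_left_fin hcon (g ^ m)).subset fun x hx => ?_)
  show (g ^ m)⁻¹ * (g ^ m * x) ∈ {x : G | x • y ∈ h}
  rwa [inv_mul_cancel_left]

end Pool.Agent.K6.H99.RO
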